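import Pool.Graph.R_seed8.Helper766.Mean.Integ

set_option autoImplicit false

namespace Pool.Agent.KS6_89.Tip

open Complex Pool.Agent.Helper766.Mean

theorem rpow_lower' {lam : ℝ} (h1 : 2 / 5 ≤ lam) (h2 : lam ≤ 1) {v : ℂ} (hv : 0 < ‖1 - v‖)
    (hb : |Real.log ‖1 - v‖| ≤ 3 / 4) :
    1 + lam * Real.log ‖1 - v‖ + lam ^ 2 / 3 * (Real.log ‖1 - v‖) ^ 2 ≤ ‖1 - v‖ ^ lam := by
  rw [Real.rpow_def_of_pos hv]
  have h3 : |Real.log ‖1 - v‖ * lam| ≤ 3 / 4 := by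
    rw [abs_mul, abs_of_nonneg (by linarith : (0 : ℝ) ≤ lam)]
    nlinarith [abs_nonneg (Real.log ‖1 - v‖)]
  have := exp_lower h3
  have h4 : (Real.log ‖1 - v‖ * lam) ^ 2 / 3 = lam ^ 2 / 3 * (Real.log ‖1 - v‖) ^ 2 := by ring
  rw [h4] at this
  linarith

theorem final_arith' {lam G a b l1 l2 l3 l4 s1 s2 s3 s4 : ℝ} (h1 : 2 / 5 ≤ lam)
    (hG0 : 0 ≤ G) (hG : G ≤ 1 / 400) (hnorm : G = a ^ 2 + b ^ 2)
    (a1 : (G - 2 * a) ^ 2 / 5 ≤ l1 ^ 2) (a2 : (G - 2 * -a) ^ 2 / 5 ≤ l2 ^ 2)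
    (a3 : (G - 2 * -b) ^ 2 / 5 ≤ l3 ^ 2) (a4 : (G - 2 * b) ^ 2 / 5 ≤ l4 ^ 2)
    (hl : -(2 * (G * G)) ≤ l1 + l2 + l3 + l4)
    (e1 : 1 + lam * l1 + lam ^ 2 / 3 * l1 ^ 2 ≤ s1)
    (e2 : 1 + lam * l2 + lam ^ 2 / 3 * l2 ^ 2 ≤ s2)
    (e3 : 1 + lam * l3 + lam ^ 2 / 3 * l3 ^ 2 ≤ s3)
    (e4 : 1 + lam * l4 + lam ^ 2 / 3 * l4 ^ 2 ≤ s4) :
    4 * (1 + lam ^ 2 / 8 * G) ≤ s1 + s2 + s3 + s4 := by
  have hGG : 0 ≤ G * G := mul_nonneg hG0 hG0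
  have hsq : 8 * G / 5 ≤ l1 ^ 2 + l2 ^ 2 + l3 ^ 2 + l4 ^ 2 := by
    have h3 : (G - 2 * a) ^ 2 + (G - 2 * -a) ^ 2 + (G - 2 * -b) ^ 2 + (G - 2 * b) ^ 2 =
        4 * (G * G) + 8 * (a ^ 2 + b ^ 2) := by ring
    rw [← hnorm] at h3
    linarith
  have hlam2 : 0 ≤ lam ^ 2 / 3 := by positivity
  have f1 : lam ^ 2 / 3 * (8 * G / 5) ≤ lam ^ 2 / 3 * (l1 ^ 2 + l2 ^ 2 + l3 ^ 2 + l4 ^ 2) :=
    mul_le_mul_of_nonneg_left hsq hlam2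
  have f2 : lam * (-(2 * (G * G))) ≤ lam * (l1 + l2 + l3 + l4) :=
    mul_le_mul_of_nonneg_left hl (by linarith)
  have f3 : lam * (2 * (G * G)) ≤ lam ^ 2 * (1 / 30) * G := by
    have h5 : 2 * G ≤ lam * (1 / 30) := by linarith
    have h6 : (lam * G) * (2 * G) ≤ (lam * G) * (lam * (1 / 30)) :=
      mul_le_mul_of_nonneg_left h5 (mul_nonneg (by linarith) hG0)
    have h7 : (lam * G) * (2 * G) = lam * (2 * (G * G)) := by ring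
    have h8 : (lam * G) * (lam * (1 / 30)) = lam ^ 2 * (1 / 30) * G := by ring
    linarith
  have f4 : 0 ≤ lam ^ 2 * G := mul_nonneg (sq_nonneg _) hG0
  have f5 : lam ^ 2 / 3 * (8 * G / 5) = lam ^ 2 * G * (8 / 15) := by ring
  have f6 : lam ^ 2 * (1 / 30) * G = lam ^ 2 * G * (1 / 30) := by ring
  have f7 : 4 * (1 + lam ^ 2 / 8 * G) = 4 + lam ^ 2 * G * (1 / 2) := by ring
  have f8 : lam * (-(2 * (G * G))) = -(lam * (2 * (G * G))) := by ring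
  have f9 : lam * (l1 + l2 + l3 + l4) = lam * l1 + lam * l2 + lam * l3 + lam * l4 := by ring
  have f10 : lam ^ 2 / 3 * (l1 ^ 2 + l2 ^ 2 + l3 ^ 2 + l4 ^ 2) = lam ^ 2 / 3 * l1 ^ 2 +
    lam ^ 2 / 3 * l2 ^ 2 + lam ^ 2 / 3 * l3 ^ 2 + lam ^ 2 / 3 * l4 ^ 2 := by ring
  rw [f5, f10] at f1
  rw [f8, f9] at f2
  rw [f6] at f3
  rw [f7]
  linarith

theorem avg_ineq' {lam : ℝ} (h1 : 2 / 5 ≤ lam) (h2 : lam ≤ 1) {w : ℂ} (hw : ‖w‖ ≤ 1 / 20) :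
    4 * (1 + lam ^ 2 / 8 * ‖w‖ ^ 2) ≤
      ‖1 - w‖ ^ lam + ‖1 - (-1) * w‖ ^ lam + ‖1 - I * w‖ ^ lam + ‖1 - (-I) * w‖ ^ lam := by
  have hn := norm_nonneg w
  have n1 : ‖(-1 : ℂ) * w‖ = ‖w‖ := by rw [norm_mul]; simp
  have n2 : ‖I * w‖ = ‖w‖ := by rw [norm_mul]; simp
  have n3 : ‖(-I) * w‖ = ‖w‖ := by rw [norm_mul]; simp
  obtain ⟨a1, b1⟩ := sq_log_lower hw
  obtain ⟨a2, b2⟩ := sq_log_lower (w := (-1) * w) (by rw [n1]; exact hw)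
  obtain ⟨a3, b3⟩ := sq_log_lower (w := I * w) (by rw [n2]; exact hw)
  obtain ⟨a4, b4⟩ := sq_log_lower (w := (-I) * w) (by rw [n3]; exact hw)
  rw [n1] at a2
  rw [n2] at a3
  rw [n3] at a4
  have r2 : ((-1 : ℂ) * w).re = -w.re := by simp
  have r3 : (I * w).re = -w.im := by simp
  have r4 : ((-I) * w).re = w.im := by simp
  rw [r2] at a2
  rw [r3] at a3
  rw [r4] at a4
  have hpos : ∀ v : ℂ, ‖v‖ ≤ 1 / 20 → 0 < ‖1 - v‖ := by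
    intro v hv
    apply norm_pos_iff.2
    intro h0
    have : v = 1 := (sub_eq_zero.1 h0).symm
    rw [this, norm_one] at hv
    norm_num at hv
  have p1 := hpos w hw
  have p2 := hpos ((-1) * w) (by rw [n1]; exact hw)
  have p3 := hpos (I * w) (by rw [n2]; exact hw)
  have p4 := hpos ((-I) * w) (by rw [n3]; exact hw)
  -- sum of logs
  have hsum : Real.log ‖1 - w‖ + Real.log ‖1 - (-1) * w‖ + Real.log ‖1 - I * w‖ +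
      Real.log ‖1 - (-I) * w‖ = Real.log ‖1 - w ^ 4‖ := by
    rw [← Real.log_mul p1.ne' p2.ne', ← Real.log_mul (by positivity) p3.ne',
      ← Real.log_mul (by positivity) p4.ne', ← norm_mul, ← norm_mul, ← norm_mul]
    congr 2
    have hI : I ^ 2 = -1 := I_sq
    linear_combination (-(w ^ 2) + w ^ 4) * hI
  have hq : 1 - ‖w‖ ^ 4 ≤ ‖1 - w ^ 4‖ := by
    have h3 : ‖(1 : ℂ)‖ ≤ ‖1 - w ^ 4‖ + ‖w ^ 4‖ := by
      have : (1 : ℂ) = (1 - w ^ 4) + w ^ 4 := by ring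
      calc ‖(1 : ℂ)‖ = ‖(1 - w ^ 4) + w ^ 4‖ := by rw [← this]
        _ ≤ _ := norm_add_le _ _
    rw [norm_one, norm_pow] at h3
    linarith
  have hG : ‖w‖ ^ 2 ≤ 1 / 400 := by nlinarith
  have hG4 : ‖w‖ ^ 4 = ‖w‖ ^ 2 * ‖w‖ ^ 2 := by ring
  have hG0 : 0 ≤ ‖w‖ ^ 2 := by positivity
  have hlogsum : -(2 * (‖w‖ ^ 2 * ‖w‖ ^ 2)) ≤ Real.log ‖1 - w ^ 4‖ := by
    have hq0 : 0 < 1 - ‖w‖ ^ 4 := by rw [hG4]; nlinarith
    have h3 : Real.log (1 - ‖w‖ ^ 4) ≤ Real.log ‖1 - w ^ 4‖ := Real.log_le_log hq0 hq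
    have h4 := Real.one_sub_inv_le_log_of_pos hq0
    have h5 : 1 - (1 - ‖w‖ ^ 4)⁻¹ = -(‖w‖ ^ 4 / (1 - ‖w‖ ^ 4)) := by field_simp; ring
    have h6 : ‖w‖ ^ 4 / (1 - ‖w‖ ^ 4) ≤ 2 * (‖w‖ ^ 2 * ‖w‖ ^ 2) := by
      rw [div_le_iff₀ hq0, hG4]
      have hGG : 0 ≤ ‖w‖ ^ 2 * ‖w‖ ^ 2 := mul_nonneg hG0 hG0
      have hGG1 : ‖w‖ ^ 2 * ‖w‖ ^ 2 ≤ 1 / 2 := by nlinarith
      have : ‖w‖ ^ 2 * ‖w‖ ^ 2 * (‖w‖ ^ 2 * ‖w‖ ^ 2) ≤ ‖w‖ ^ 2 * ‖w‖ ^ 2 * (1 / 2) :=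
        mul_le_mul_of_nonneg_left hGG1 hGG
      linarith
    linarith
  have e1 := rpow_lower' h1 h2 p1 b1
  have e2 := rpow_lower' h1 h2 p2 b2
  have e3 := rpow_lower' h1 h2 p3 b3
  have e4 := rpow_lower' h1 h2 p4 b4
  have hnorm : ‖w‖ ^ 2 = w.re ^ 2 + w.im ^ 2 := by
    rw [← Complex.normSq_eq_norm_sq, Complex.normSq_apply]; ring
  have hl4 := hsum.symm ▸ hlogsum
  exact final_arith' h1 hG0 hG hnorm a1 a2 a3 a4 hl4 e1 e2 e3 e4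

/-- For `1/2 ≤ a ≤ 2`, `0 ≤ b ≤ 1/4` and `0 < lam ≤ 1`, `(a - b)^lam ≥ a^lam - 4 b`. -/
theorem rpow_sub_lower {lam a b : ℝ} (h1 : 0 ≤ lam) (h2 : lam ≤ 1) (ha : 1 / 2 ≤ a)
    (hb0 : 0 ≤ b) (hb : b ≤ 1 / 4) : a ^ lam - 4 * b ≤ (a - b) ^ lam := by
  have hab : 1 / 4 ≤ a - b := by linarith
  have ha0 : 0 < a := by linarith
  have hab0 : 0 < a - b := by linarith
  -- a^lam = (a-b)^lam * (a/(a-b))^lam ≤ (a-b)^lam * (1 + b/(a-b))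
  have h3 : a ^ lam = (a - b) ^ lam * (1 + b / (a - b)) ^ lam := by
    rw [← Real.mul_rpow hab0.le (by positivity)]
    congr 1
    field_simp
    ring
  have h4 : (1 + b / (a - b)) ^ lam ≤ 1 + b / (a - b) := by
    have h5 : (1 : ℝ) ≤ 1 + b / (a - b) := by
      have : 0 ≤ b / (a - b) := by positivity
      linarith
    calc (1 + b / (a - b)) ^ lam ≤ (1 + b / (a - b)) ^ (1 : ℝ) :=
          Real.rpow_le_rpow_of_exponent_le h5 h2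
      _ = _ := Real.rpow_one _
  have h6 : (a - b) ^ lam * (1 + b / (a - b)) ^ lam ≤ (a - b) ^ lam * (1 + b / (a - b)) :=
    mul_le_mul_of_nonneg_left h4 (Real.rpow_nonneg hab0.le _)
  have h7 : (a - b) ^ lam * (b / (a - b)) ≤ 4 * b := by
    have h8 : (a - b) ^ lam ≤ max 1 (a - b) := by
      rcases le_total (a - b) 1 with h | h
      · exact (Real.rpow_le_one hab0.le h h1).trans (le_max_left _ _)
      · calc (a - b) ^ lam ≤ (a - b) ^ (1 : ℝ) := Real.rpow_le_rpow_of_exponent_le h h2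
          _ = a - b := Real.rpow_one _
          _ ≤ _ := le_max_right _ _
    have h9 : max 1 (a - b) * (b / (a - b)) ≤ 4 * b := by
      rw [mul_div_assoc', div_le_iff₀ hab0]
      rcases le_total (a - b) 1 with h | h
      · rw [max_eq_left h]; nlinarith
      · rw [max_eq_right h]; nlinarith
    exact (mul_le_mul_of_nonneg_right h8 (by positivity)).trans h9
  have h10 : (a - b) ^ lam * (1 + b / (a - b)) =
      (a - b) ^ lam + (a - b) ^ lam * (b / (a - b)) := by ring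
  rw [h3]
  linarith

end Pool.Agent.KS6_89.Tip
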