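import Pool.Agent.KS6_89.Tip.Fn

set_option autoImplicit false

namespace Pool.Agent.KS6_89.Tip

open Complex Pool.Agent.Helper766.Mean

/-- the point of the circle -/
noncomputable def cz (r t : ℝ) : ℂ := (r : ℂ) * exp ((t : ℂ) * I)

theorem norm_cz {r : ℝ} (hr : 0 ≤ r) (t : ℝ) : ‖cz r t‖ = r := norm_circ hr t

theorem cos_eq_neg (t : ℝ) : Real.cos t = -Real.cos (t - Real.pi) := by
  rw [Real.cos_sub_pi]; ring

theorem one_add_lower {r t : ℝ} (hr : 1 / 2 ≤ r) (h0 : 0 ≤ t) (h1 : t ≤ 2 * Real.pi) :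
    |t - Real.pi| / Real.pi ≤ ‖1 + cz r t‖ := by
  have hp := Real.pi_pos
  have h2 := normSq_one_add_circ r t
  have ha : |t - Real.pi| ≤ Real.pi := by rw [abs_le]; constructor <;> linarith
  have h3 := Real.mul_le_sin (x := |t - Real.pi| / 2) (by positivity) (by linarith)
  have h4 : 2 / Real.pi * (|t - Real.pi| / 2) = |t - Real.pi| / Real.pi := by field_simp
  rw [h4] at h3
  have h5 : 1 + Real.cos t = 2 * Real.sin (|t - Real.pi| / 2) ^ 2 := by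
    rw [cos_eq_neg, ← Real.cos_abs (t - Real.pi)]
    have := Real.cos_two_mul' (|t - Real.pi| / 2)
    rw [show 2 * (|t - Real.pi| / 2) = |t - Real.pi| by ring] at this
    nlinarith [Real.sin_sq_add_cos_sq (|t - Real.pi| / 2)]
  have h6 : (|t - Real.pi| / Real.pi) ^ 2 ≤ Real.sin (|t - Real.pi| / 2) ^ 2 :=
    pow_le_pow_left₀ (by positivity) h3 2
  have h7 : (|t - Real.pi| / Real.pi) ^ 2 ≤ ‖1 + cz r t‖ ^ 2 := by
    unfold cz
    rw [h2]
    nlinarith [sq_nonneg (1 - r), sq_nonneg (|t - Real.pi| / Real.pi),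
      sq_nonneg (Real.sin (|t - Real.pi| / 2))]
  exact le_of_sq_le_sq h7 (norm_nonneg _)

theorem one_add_upper {r t : ℝ} (hr : 0 ≤ r) (hr1 : r ≤ 1) :
    ‖1 + cz r t‖ ≤ (1 - r) + |t - Real.pi| := by
  have h2 := normSq_one_add_circ r t
  have h3 := Real.one_sub_sq_div_two_le_cos (x := t - Real.pi)
  have h4 := cos_eq_neg t
  have h7 : ‖1 + cz r t‖ ^ 2 ≤ ((1 - r) + |t - Real.pi|) ^ 2 := by
    unfold cz
    rw [h2]
    have h5 : 1 + Real.cos t ≤ |t - Real.pi| ^ 2 / 2 := by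
      rw [h4, sq_abs]; linarith
    nlinarith [abs_nonneg (t - Real.pi), mul_nonneg (sub_nonneg.2 hr1) (abs_nonneg (t - Real.pi)),
      sq_nonneg |t - Real.pi|]
  exact le_of_sq_le_sq h7 (by have := abs_nonneg (t - Real.pi); linarith)

theorem one_sub_le_two {r t : ℝ} (hr : 0 ≤ r) (hr1 : r ≤ 1) : ‖1 - cz r t‖ ≤ 2 := by
  calc ‖1 - cz r t‖ ≤ ‖(1 : ℂ)‖ + ‖cz r t‖ := norm_sub_le _ _
    _ ≤ 2 := by rw [norm_one, norm_cz hr]; linarith

theorem one_sub_ge {r t : ℝ} (hr : 0 ≤ r) : 1 - r ≤ ‖1 - cz r t‖ := by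
  have h : ‖(1 : ℂ)‖ ≤ ‖1 - cz r t‖ + ‖cz r t‖ := by
    calc ‖(1 : ℂ)‖ = ‖(1 - cz r t) + cz r t‖ := by ring_nf
      _ ≤ _ := norm_add_le _ _
  rw [norm_one, norm_cz hr] at h
  linarith

theorem two_le_add (z : ℂ) : 2 ≤ ‖1 - z‖ + ‖1 + z‖ := by
  calc (2 : ℝ) = ‖(1 - z) + (1 + z)‖ := by ring_nf; norm_num
    _ ≤ _ := norm_add_le _ _

theorem norm_Zt (z : ℂ) : ‖Zt z‖ = ‖1 + z‖ / ‖1 - z‖ := by
  unfold Zt
  rw [norm_div, norm_mul, Complex.norm_I, one_mul]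

theorem norm_koebe' {z : ℂ} (hz : ‖z‖ < 1) : ‖deriv koebe z‖ = ‖1 + z‖ / ‖1 - z‖ ^ 3 := by
  rw [deriv_koebe hz, norm_div, norm_pow]

/-- the scaled coordinate -/
noncomputable def zt (eps r t : ℝ) : ℂ := Zt (cz r t) / eps

theorem norm_zt {eps : ℝ} (he : 0 < eps) (r t : ℝ) :
    ‖zt eps r t‖ = ‖1 + cz r t‖ / ‖1 - cz r t‖ / eps := by
  unfold zt
  rw [norm_div, norm_Zt, Complex.norm_real, Real.norm_of_nonneg he.le]

theorem im_zt {eps r t : ℝ} (hr : 0 ≤ r) (hr1 : r < 1) :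
    (zt eps r t).im = (1 - r ^ 2) / ‖1 - cz r t‖ ^ 2 / eps := by
  have hn := norm_cz hr t
  unfold zt
  rw [Complex.div_ofReal_im, im_Zt (by rw [hn]; exact hr1), hn]

theorem im_zt_lower {N r t : ℝ} (hN : 0 < N) (hr : 0 ≤ r) (hr1 : r < 1) :
    1 / (4 * N) ≤ (zt (N * (1 - r)) r t).im := by
  have h2 := one_sub_le_two (t := t) hr hr1.le
  have h3 := one_sub_ge (t := t) hr
  have h1 : 0 < 1 - r := by linarith
  have h0 : 0 < ‖1 - cz r t‖ := by linarith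
  rw [im_zt hr hr1, div_div, div_le_div_iff₀ (by positivity) (by positivity)]
  have h4 : ‖1 - cz r t‖ ^ 2 ≤ 4 := by nlinarith
  have h5 : 0 < N * (1 - r) := by positivity
  have h6 : ‖1 - cz r t‖ ^ 2 * (N * (1 - r)) ≤ 4 * (N * (1 - r)) :=
    mul_le_mul_of_nonneg_right h4 h5.le
  nlinarith [mul_nonneg hr h5.le]

theorem im_zt_upper {N r t : ℝ} (hN : 0 < N) (hr : 0 ≤ r) (hr1 : r < 1)
    (h : 1 ≤ ‖1 - cz r t‖) : N * (zt (N * (1 - r)) r t).im ≤ 2 := by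
  have h1 : 0 < 1 - r := by linarith
  rw [im_zt hr hr1, div_div, ← mul_div_assoc, div_le_iff₀ (by positivity)]
  have h4 : 1 ≤ ‖1 - cz r t‖ ^ 2 := one_le_pow₀ h
  have h5 : 0 < N * (1 - r) := by positivity
  nlinarith [mul_nonneg hr h5.le, mul_le_mul_of_nonneg_right h4 h5.le]

/-- lower bound of the scaled coordinate -/
theorem norm_zt_lower {eps r t : ℝ} (he : 0 < eps) (hr : 1 / 2 ≤ r) (hr1 : r < 1) (h0 : 0 ≤ t)
    (h1 : t ≤ 2 * Real.pi) : |t - Real.pi| / (2 * Real.pi * eps) ≤ ‖zt eps r t‖ := by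
  have hp := Real.pi_pos
  have h2 := one_add_lower hr h0 h1
  have h3 := one_sub_le_two (t := t) (by linarith : 0 ≤ r) hr1.le
  have h4 := one_sub_ge (t := t) (by linarith : 0 ≤ r)
  have h5 : 0 < ‖1 - cz r t‖ := by linarith
  rw [norm_zt he]
  calc |t - Real.pi| / (2 * Real.pi * eps) = |t - Real.pi| / Real.pi / 2 / eps := by field_simp
    _ ≤ ‖1 + cz r t‖ / ‖1 - cz r t‖ / eps := by gcongr

/-- the loss term -/
theorem loss_bound {lam : ℝ} (hl0 : 0 < lam) (hl : lam ≤ 1) {N r t : ℝ} (hN : 1 ≤ N)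
    (hr : 1 / 2 ≤ r) (hr1 : r < 1) (h0 : 0 ≤ t) (h1 : t ≤ 2 * Real.pi)
    (_he1 : N * (1 - r) ≤ 1) :
    ‖deriv koebe (cz r t)‖ ^ lam / (‖zt (N * (1 - r)) r t‖ * ‖zt (N * (1 - r)) r t + I‖ ^ 3) ≤
      4 * (N * (1 - r)) ^ lam * N ^ (1 - lam) *
        (1 + ((t - Real.pi) / (2 * Real.pi * (N * (1 - r)))) ^ 2)⁻¹ + 2 * (N * (1 - r)) ^ 4 := by
  have hp := Real.pi_pos
  have hr0 : 0 ≤ r := by linarith
  have hN0 : 0 < N := by linarith
  have hρ : 0 < 1 - r := by linarith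
  set e := N * (1 - r) with he
  have he0 : 0 < e := by positivity
  have hz1 : ‖cz r t‖ < 1 := by rw [norm_cz hr0]; exact hr1
  have hD := one_sub_ge (t := t) hr0
  have hD0 : 0 < ‖1 - cz r t‖ := by linarith
  have hIm := im_zt_lower (t := t) hN0 hr0 hr1
  rw [← he] at hIm
  have hImp : 0 < (zt e r t).im := lt_of_lt_of_le (by positivity) hIm
  have hs1 := one_le_s hImp
  have hs2 := one_add_sq_le_s hImp
  have hss := norm_le_s hImp
  have hζ : 0 < ‖zt e r t‖ := norm_pos_iff.2 (ne_of_im hImp)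
  have hlow := norm_zt_lower he0 hr hr1 h0 h1
  have hs0 : 0 < ‖zt e r t + I‖ := by linarith
  have hk : ‖deriv koebe (cz r t)‖ = e * ‖zt e r t‖ / ‖1 - cz r t‖ ^ 2 := by
    rw [norm_koebe' hz1, norm_zt he0]
    field_simp
  have pos1 : 0 ≤ 4 * e ^ lam * N ^ (1 - lam) *
        (1 + ((t - Real.pi) / (2 * Real.pi * e)) ^ 2)⁻¹ := by positivity
  have pos2 : 0 ≤ 2 * e ^ 4 := by positivity
  rcases le_or_gt 1 ‖1 - cz r t‖ with hc | hc
  · -- near the tip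
    have b1 : ‖deriv koebe (cz r t)‖ ≤ e * ‖zt e r t‖ := by
      rw [hk]; exact div_le_self (by positivity) (one_le_pow₀ hc)
    have b2 : ‖deriv koebe (cz r t)‖ ^ lam ≤ e ^ lam * ‖zt e r t‖ ^ lam := by
      rw [← Real.mul_rpow he0.le hζ.le]
      exact Real.rpow_le_rpow (norm_nonneg _) b1 hl0.le
    have b3 : ‖zt e r t‖ ^ lam / ‖zt e r t‖ ≤ 4 * N ^ (1 - lam) := by
      have c1 : ‖zt e r t‖ ^ lam / ‖zt e r t‖ = ‖zt e r t‖ ^ (lam - 1) := by
        rw [Real.rpow_sub_one hζ.ne']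
      have c2 : 1 / (4 * N) ≤ ‖zt e r t‖ :=
        hIm.trans ((le_abs_self _).trans (Complex.abs_im_le_norm _))
      have c3 : ‖zt e r t‖ ^ (lam - 1) ≤ (1 / (4 * N)) ^ (lam - 1) :=
        Real.rpow_le_rpow_of_nonpos (by positivity) c2 (by linarith)
      have c4 : (1 / (4 * N)) ^ (lam - 1) = (4 * N) ^ (1 - lam) := by
        rw [one_div, Real.inv_rpow (by positivity), ← Real.rpow_neg (by positivity)]
        congr 1; ring
      have c5 : (4 * N) ^ (1 - lam) = 4 ^ (1 - lam) * N ^ (1 - lam) :=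
        Real.mul_rpow (by norm_num) hN0.le
      have c6 : (4 : ℝ) ^ (1 - lam) ≤ 4 := by
        calc (4 : ℝ) ^ (1 - lam) ≤ 4 ^ (1 : ℝ) :=
              Real.rpow_le_rpow_of_exponent_le (by norm_num) (by linarith)
          _ = 4 := Real.rpow_one _
      rw [c1]
      refine c3.trans ?_
      rw [c4, c5]
      exact mul_le_mul_of_nonneg_right c6 (by positivity)
    have b4 : 1 + ((t - Real.pi) / (2 * Real.pi * e)) ^ 2 ≤ ‖zt e r t + I‖ ^ 3 := by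
      have d1 : ((t - Real.pi) / (2 * Real.pi * e)) ^ 2 ≤ ‖zt e r t‖ ^ 2 := by
        have : ((t - Real.pi) / (2 * Real.pi * e)) ^ 2 =
            (|t - Real.pi| / (2 * Real.pi * e)) ^ 2 := by
          rw [div_pow, div_pow, sq_abs]
        rw [this]
        exact pow_le_pow_left₀ (by positivity) hlow 2
      calc 1 + ((t - Real.pi) / (2 * Real.pi * e)) ^ 2 ≤ 1 + ‖zt e r t‖ ^ 2 := by linarith
        _ ≤ ‖zt e r t + I‖ ^ 2 := hs2
        _ ≤ _ := pow_le_pow_right₀ hs1 (by norm_num)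
    have b5 : ‖deriv koebe (cz r t)‖ ^ lam / (‖zt e r t‖ * ‖zt e r t + I‖ ^ 3) ≤
        4 * e ^ lam * N ^ (1 - lam) * (1 + ((t - Real.pi) / (2 * Real.pi * e)) ^ 2)⁻¹ := by
      calc ‖deriv koebe (cz r t)‖ ^ lam / (‖zt e r t‖ * ‖zt e r t + I‖ ^ 3)
          ≤ e ^ lam * ‖zt e r t‖ ^ lam / (‖zt e r t‖ * ‖zt e r t + I‖ ^ 3) := by gcongr
        _ = e ^ lam * (‖zt e r t‖ ^ lam / ‖zt e r t‖) * (‖zt e r t + I‖ ^ 3)⁻¹ := by
            field_simp
        _ ≤ e ^ lam * (4 * N ^ (1 - lam)) *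
            (1 + ((t - Real.pi) / (2 * Real.pi * e)) ^ 2)⁻¹ := by
            gcongr
        _ = _ := by ring
    linarith
  · -- far from the tip
    have h2 := two_le_add (cz r t)
    have h3 : 1 ≤ ‖1 + cz r t‖ := by linarith
    have h4 : ‖1 + cz r t‖ ≤ 2 := by
      calc ‖1 + cz r t‖ ≤ ‖(1 : ℂ)‖ + ‖cz r t‖ := norm_add_le _ _
        _ ≤ 2 := by rw [norm_one]; linarith
    have h5 : 1 / (e * ‖1 - cz r t‖) ≤ ‖zt e r t‖ := by
      rw [norm_zt he0, div_div, mul_comm ‖1 - cz r t‖ e]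
      gcongr
    have h6 : 1 ≤ ‖deriv koebe (cz r t)‖ := by
      rw [norm_koebe' hz1, le_div_iff₀ (by positivity), one_mul]
      have : ‖1 - cz r t‖ ^ 3 ≤ 1 := pow_le_one₀ hD0.le hc.le
      linarith
    have h7 : ‖deriv koebe (cz r t)‖ ^ lam ≤ 2 / ‖1 - cz r t‖ ^ 3 := by
      calc ‖deriv koebe (cz r t)‖ ^ lam ≤ ‖deriv koebe (cz r t)‖ ^ (1 : ℝ) :=
            Real.rpow_le_rpow_of_exponent_le h6 hl
        _ = ‖1 + cz r t‖ / ‖1 - cz r t‖ ^ 3 := by rw [Real.rpow_one, norm_koebe' hz1]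
        _ ≤ _ := by gcongr
    have h8 : (1 / (e * ‖1 - cz r t‖)) ^ 4 ≤ ‖zt e r t‖ * ‖zt e r t + I‖ ^ 3 := by
      calc (1 / (e * ‖1 - cz r t‖)) ^ 4 ≤ ‖zt e r t‖ ^ 4 := by gcongr
        _ = ‖zt e r t‖ * ‖zt e r t‖ ^ 3 := by ring
        _ ≤ _ := by gcongr
    have h9 : ‖deriv koebe (cz r t)‖ ^ lam / (‖zt e r t‖ * ‖zt e r t + I‖ ^ 3) ≤ 2 * e ^ 4 := by
      calc ‖deriv koebe (cz r t)‖ ^ lam / (‖zt e r t‖ * ‖zt e r t + I‖ ^ 3)
          ≤ (2 / ‖1 - cz r t‖ ^ 3) / (1 / (e * ‖1 - cz r t‖)) ^ 4 := by gcongr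
        _ = 2 * e ^ 4 * ‖1 - cz r t‖ := by field_simp
        _ ≤ 2 * e ^ 4 * 1 := by gcongr
        _ = _ := mul_one _
    linarith

/-- the gain -/
theorem gain_bound {lam : ℝ} (hl0 : 0 < lam) (hl : lam ≤ 1) {x N r t : ℝ} (hx : 0 ≤ x)
    (hN : 1 ≤ N) (hr : 1 / 2 ≤ r) (hr1 : r < 1) (he1 : N * (1 - r) ≤ 1 / 3)
    (h0 : Real.pi + N * (1 - r) ≤ t) (h1 : t ≤ Real.pi + 2 * (N * (1 - r))) :
    (N * (1 - r)) ^ lam / 32 * (x * N / 2048) ^ 2 ≤
      ‖deriv koebe (cz r t)‖ ^ lam * ‖bt x N (zt (N * (1 - r)) r t)‖ ^ 2 := by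
  have hp := Real.pi_gt_three
  have hp4 := Real.pi_le_four
  have hr0 : 0 ≤ r := by linarith
  have hN0 : 0 < N := by linarith
  have hρ : 0 < 1 - r := by linarith
  have hIm := im_zt_lower (t := t) hN0 hr0 hr1
  have hImu := im_zt_upper (t := t) hN0 hr0 hr1
  have hρe : 1 - r ≤ N * (1 - r) := le_mul_of_one_le_left hρ.le hN
  set e := N * (1 - r) with he
  have he0 : 0 < e := by positivity
  have hz1 : ‖cz r t‖ < 1 := by rw [norm_cz hr0]; exact hr1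
  have hImp : 0 < (zt e r t).im := lt_of_lt_of_le (by positivity) hIm
  have ht : |t - Real.pi| = t - Real.pi := abs_of_nonneg (by linarith)
  have a1 := one_add_lower (r := r) (t := t) hr (by linarith) (by linarith)
  have a2 := one_add_upper (r := r) (t := t) hr0 hr1.le
  rw [ht] at a1 a2
  have a3 : ‖1 + cz r t‖ ≤ 3 * e := by linarith
  have a4 := two_le_add (cz r t)
  have a5 : 1 ≤ ‖1 - cz r t‖ := by linarith
  have a6 := one_sub_le_two (t := t) hr0 hr1.le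
  have a7 : e / 4 ≤ ‖1 + cz r t‖ := by
    refine le_trans ?_ a1
    rw [div_le_div_iff₀ (by norm_num) (by linarith)]
    nlinarith
  have k1 : e / 32 ≤ ‖deriv koebe (cz r t)‖ := by
    rw [norm_koebe' hz1]
    have : ‖1 - cz r t‖ ^ 3 ≤ 2 ^ 3 := pow_le_pow_left₀ (norm_nonneg _) a6 3
    calc e / 32 = (e / 4) / 2 ^ 3 := by ring
      _ ≤ _ := by gcongr
  have k2 : e ^ lam / 32 ≤ ‖deriv koebe (cz r t)‖ ^ lam := by
    calc e ^ lam / 32 ≤ e ^ lam / 32 ^ lam := by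
          have : (32 : ℝ) ^ lam ≤ 32 := by
            calc (32 : ℝ) ^ lam ≤ 32 ^ (1 : ℝ) :=
                  Real.rpow_le_rpow_of_exponent_le (by norm_num) hl
              _ = 32 := Real.rpow_one _
          gcongr
      _ = (e / 32) ^ lam := (Real.div_rpow he0.le (by norm_num) _).symm
      _ ≤ _ := Real.rpow_le_rpow (by positivity) k1 hl0.le
  have z1 : ‖zt e r t‖ ≤ 3 := by
    rw [norm_zt he0]
    calc ‖1 + cz r t‖ / ‖1 - cz r t‖ / e ≤ (3 * e) / 1 / e := by gcongr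
      _ = 3 := by field_simp
  have z2 : ‖zt e r t + I‖ ≤ 4 := by
    calc ‖zt e r t + I‖ ≤ ‖zt e r t‖ + ‖I‖ := norm_add_le _ _
      _ ≤ 4 := by rw [Complex.norm_I]; linarith
  have z3 := one_le_s hImp
  have b1 : x * N / 2048 ≤ ‖bt x N (zt e r t)‖ := by
    rw [norm_bt hx hN0.le]
    have e1 : Real.exp (-2) ≤ Real.exp (-(N * (zt e r t).im)) := by
      apply Real.exp_le_exp.2; have := hImu a5; linarith
    have e2 : 1 / 8 ≤ Real.exp (-2) := by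
      rw [Real.exp_neg, ← one_div]
      have : Real.exp 2 ≤ 8 := by
        have h3 := Real.exp_one_lt_d9
        have h4 : Real.exp 2 = Real.exp 1 * Real.exp 1 := by rw [← Real.exp_add]; norm_num
        rw [h4]
        nlinarith [Real.exp_pos 1]
      exact one_div_le_one_div_of_le (Real.exp_pos _) this
    have e3 : ‖zt e r t + I‖ ^ 4 ≤ 4 ^ 4 := pow_le_pow_left₀ (norm_nonneg _) z2 4
    calc x * N / 2048 = x * N * (1 / 8) / 4 ^ 4 := by ring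
      _ ≤ x * N * Real.exp (-(N * (zt e r t).im)) / ‖zt e r t + I‖ ^ 4 := by
        have : 0 < ‖zt e r t + I‖ ^ 4 := by positivity
        gcongr
        exact e2.trans e1
  have b2 : (x * N / 2048) ^ 2 ≤ ‖bt x N (zt e r t)‖ ^ 2 := pow_le_pow_left₀ (by positivity) b1 2
  exact mul_le_mul k2 b2 (by positivity) (by positivity)

end Pool.Agent.KS6_89.Tip
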