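import Pool.Agent.KS6_89.Tip.Q

set_option autoImplicit false

namespace Pool.Agent.KS6_89.Tip

open Complex Pool.Agent.Helper766.Mean

/-- the base point `i / eps` -/
noncomputable def bp (eps : ℝ) : ℂ := I / eps

theorem im_bp {eps : ℝ} (he : 0 < eps) : 0 < (bp eps).im := by
  unfold bp
  rw [Complex.div_ofReal_im, Complex.I_im]
  positivity

theorem norm_bp {eps : ℝ} (he : 0 < eps) : ‖bp eps‖ = 1 / eps := by
  unfold bp
  rw [norm_div, Complex.norm_I, Complex.norm_real, Real.norm_of_nonneg he.le]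

theorem norm_bp_add {eps : ℝ} (he : 0 < eps) : 1 / eps ≤ ‖bp eps + I‖ := by
  rw [← norm_bp he]
  exact norm_le_s (im_bp he)

theorem qf_base {x N : ℝ} (hx : 0 ≤ x) (hx1 : x ≤ 1 / 2) (hN : 0 ≤ N)
    (hxN : x * (N + 4) ≤ 1) {u : ℂ} (hu : ‖u‖ = 1) {eps : ℝ} (he : 0 < eps) :
    ‖qf x N u (bp eps)‖ ≤ 1 + 12 * x * eps ^ 4 := by
  have h := im_bp he
  have h1 := qf_approx hx hx1 hN hxN hu h
  have h2 := norm_bp he
  have h3 := norm_bp_add he
  have hs1 := one_le_s h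
  have him : (bp eps).im = 1 / eps := by
    unfold bp
    rw [Complex.div_ofReal_im, Complex.I_im]
  have hR : 0 < 1 / eps := by positivity
  have a1 : 11 * x / (‖bp eps‖ * ‖bp eps + I‖ ^ 3) ≤ 11 * x * eps ^ 4 := by
    calc 11 * x / (‖bp eps‖ * ‖bp eps + I‖ ^ 3) ≤ 11 * x / ((1 / eps) * (1 / eps) ^ 3) := by
          rw [h2]; gcongr
      _ = _ := by field_simp
  have a2 : ‖bt x N (bp eps)‖ ≤ x * eps ^ 4 := by
    rw [norm_bt hx hN, him]
    have h4 : N * Real.exp (-(N * (1 / eps))) ≤ eps := by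
      have h5 : N * (1 / eps) ≤ Real.exp (N * (1 / eps)) := by
        have := Real.add_one_le_exp (N * (1 / eps)); linarith
      rw [Real.exp_neg, ← div_eq_mul_inv, div_le_iff₀ (Real.exp_pos _)]
      calc N = eps * (N * (1 / eps)) := by field_simp
        _ ≤ _ := mul_le_mul_of_nonneg_left h5 he.le
    have h6 : (1 / eps) ^ 3 ≤ ‖bp eps + I‖ ^ 4 := by
      calc (1 / eps) ^ 3 ≤ ‖bp eps + I‖ ^ 3 := by gcongr
        _ ≤ _ := pow_le_pow_right₀ hs1 (by norm_num)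
    calc x * N * Real.exp (-(N * (1 / eps))) / ‖bp eps + I‖ ^ 4
        = x * (N * Real.exp (-(N * (1 / eps)))) / ‖bp eps + I‖ ^ 4 := by ring
      _ ≤ x * eps / (1 / eps) ^ 3 := by gcongr
      _ = _ := by field_simp
  have h7 : ‖qf x N u (bp eps)‖ ≤ ‖(1 : ℂ)‖ + ‖u * bt x N (bp eps)‖ +
      ‖qf x N u (bp eps) - (1 + u * bt x N (bp eps))‖ := by
    calc ‖qf x N u (bp eps)‖ = ‖(1 + u * bt x N (bp eps)) +
        (qf x N u (bp eps) - (1 + u * bt x N (bp eps)))‖ := by ring_nf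
      _ ≤ ‖1 + u * bt x N (bp eps)‖ + _ := norm_add_le _ _
      _ ≤ _ := by gcongr; exact norm_add_le _ _
  rw [norm_one, norm_mul, hu, one_mul] at h7
  linarith

theorem qf_ne {x N : ℝ} (hx : 0 ≤ x) (hN : 0 ≤ N) (hxN : x * (N + 6) < 1) {u ζ : ℂ}
    (hu : ‖u‖ = 1) (h : 0 < ζ.im) : qf x N u ζ ≠ 0 :=
  div_ne_zero (mul_ne_zero (Hm_ne hx hN hu h) (Hm'_ne hx hN hxN hu h)) (ne_of_im h)

/-- the function of class `S` -/
noncomputable def Fs (x N eps : ℝ) (u z : ℂ) : ℂ :=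
  I * eps / (4 * (Hm x N u (bp eps) * Hm' x N u (bp eps))) *
    (Hm x N u (bp eps) ^ 2 - Hm x N u (Zt z / eps) ^ 2)

theorem im_scaled {eps : ℝ} (he : 0 < eps) {z : ℂ} (hz : ‖z‖ < 1) : 0 < (Zt z / eps).im := by
  rw [Complex.div_ofReal_im]
  exact div_pos (im_Zt_pos hz) he

theorem hasDerivAt_Fs {x N : ℝ} (hx : 0 ≤ x) (hN : 0 ≤ N) (hxN : x * (N + 6) < 1) {u : ℂ}
    (hu : ‖u‖ = 1) {eps : ℝ} (he : 0 < eps) {z : ℂ} (hz : ‖z‖ < 1) :
    HasDerivAt (Fs x N eps u) (Hm x N u (Zt z / eps) * Hm' x N u (Zt z / eps) /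
      (Hm x N u (bp eps) * Hm' x N u (bp eps)) / (1 - z) ^ 2) z := by
  have h := im_scaled he hz
  have hb := im_bp he
  have h0 : Hm x N u (bp eps) ≠ 0 := Hm_ne hx hN hu hb
  have h0' : Hm' x N u (bp eps) ≠ 0 := Hm'_ne hx hN hxN hu hb
  have he' : (eps : ℂ) ≠ 0 := by exact_mod_cast he.ne'
  have h1z := one_sub_ne hz
  have h1 : HasDerivAt (fun w => Hm x N u (Zt w / eps))
      (Hm' x N u (Zt z / eps) * (2 * I / (1 - z) ^ 2 / eps)) z := by
    have hh : HasDerivAt (fun w => Zt w / (eps : ℂ)) (2 * I / (1 - z) ^ 2 / eps) z :=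
      (hasDerivAt_Zt hz).div_const _
    exact HasDerivAt.comp z (h := fun w => Zt w / (eps : ℂ)) (hasDerivAt_Hm x N u h) hh
  have h2 := ((h1.fun_pow 2).const_sub (Hm x N u (bp eps) ^ 2)).const_mul
    (I * eps / (4 * (Hm x N u (bp eps) * Hm' x N u (bp eps))))
  have h3 : HasDerivAt (Fs x N eps u) _ z := h2
  refine h3.congr_deriv ?_
  have hI : I * I = -1 := I_mul_I
  field_simp
  simp only [Nat.cast_ofNat, Nat.add_one_sub_one, pow_one]
  linear_combination (-(4 * Hm x N u (Zt z / eps) * Hm' x N u (Zt z / eps))) * hI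

theorem Zt_zero : Zt 0 = I := by simp [Zt]

theorem classS_Fs {x N : ℝ} (hx : 0 ≤ x) (hN : 0 ≤ N) (hxN : x * (N + 6) < 1) {u : ℂ}
    (hu : ‖u‖ = 1) {eps : ℝ} (he : 0 < eps) : ClassS (Fs x N eps u) := by
  have hb := im_bp he
  have h0 : Hm x N u (bp eps) ≠ 0 := Hm_ne hx hN hu hb
  have h0' : Hm' x N u (bp eps) ≠ 0 := Hm'_ne hx hN hxN hu hb
  have he' : (eps : ℂ) ≠ 0 := by exact_mod_cast he.ne'
  have hz0 : ‖(0 : ℂ)‖ < 1 := by simp
  refine ⟨?_, ?_, ?_, ?_⟩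
  · intro z hz
    rw [mem_ball_zero_iff] at hz
    exact (hasDerivAt_Fs hx hN hxN hu he hz).differentiableAt.differentiableWithinAt
  · intro a ha b hb' hab
    rw [mem_ball_zero_iff] at ha hb'
    have hc : I * eps / (4 * (Hm x N u (bp eps) * Hm' x N u (bp eps))) ≠ 0 := by
      apply div_ne_zero (mul_ne_zero I_ne_zero he')
      exact mul_ne_zero (by norm_num) (mul_ne_zero h0 h0')
    unfold Fs at hab
    have h1 := mul_left_cancel₀ hc hab
    have h2 : Hm x N u (Zt a / eps) ^ 2 = Hm x N u (Zt b / eps) ^ 2 := by linear_combination -h1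
    have ia := im_scaled he ha
    have ib := im_scaled he hb'
    have h3 : Hm x N u (Zt a / eps) = Hm x N u (Zt b / eps) := by
      rcases sq_eq_sq_iff_eq_or_eq_neg.1 h2 with h | h
      · exact h
      · exfalso
        have j1 := im_Hm hx hN hu ia
        have j2 := im_Hm hx hN hu ib
        rw [h, Complex.neg_im] at j1
        linarith
    have h4 := Hm_inj hx hN hxN hu ia ib h3
    have h5 : Zt a = Zt b := by
      have := (div_left_inj' he').1 h4
      exact this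
    exact Zt_inj ha hb' h5
  · unfold Fs bp
    rw [Zt_zero]
    simp
  · rw [(hasDerivAt_Fs hx hN hxN hu he hz0).deriv, Zt_zero]
    have : I / (eps : ℂ) = bp eps := rfl
    rw [this, div_self (mul_ne_zero h0 h0')]
    simp

theorem norm_deriv_Fs {x N : ℝ} (hx : 0 ≤ x) (hN : 0 ≤ N) (hxN : x * (N + 6) < 1) {u : ℂ}
    (hu : ‖u‖ = 1) {eps : ℝ} (he : 0 < eps) {z : ℂ} (hz : ‖z‖ < 1) :
    ‖deriv (Fs x N eps u) z‖ =
      ‖deriv koebe z‖ * ‖qf x N u (Zt z / eps)‖ / ‖qf x N u (bp eps)‖ := by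
  have h := im_scaled he hz
  have hb := im_bp he
  have h0 : Hm x N u (bp eps) ≠ 0 := Hm_ne hx hN hu hb
  have h0' : Hm' x N u (bp eps) ≠ 0 := Hm'_ne hx hN hxN hu hb
  have he' : (eps : ℂ) ≠ 0 := by exact_mod_cast he.ne'
  have h1z := one_sub_ne hz
  have h2z := one_add_ne hz
  rw [(hasDerivAt_Fs hx hN hxN hu he hz).deriv, deriv_koebe hz, ← norm_mul, ← norm_div]
  have key : (1 + z) / (1 - z) ^ 3 * qf x N u (Zt z / eps) / qf x N u (bp eps) =
      Hm x N u (Zt z / eps) * Hm' x N u (Zt z / eps) /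
      (Hm x N u (bp eps) * Hm' x N u (bp eps)) / (1 - z) ^ 2 := by
    have e1 : qf x N u (Zt z / eps) = Hm x N u (Zt z / eps) * Hm' x N u (Zt z / eps) *
        (eps * (1 - z) / (I * (1 + z))) := by
      unfold qf
      rw [div_eq_mul_inv _ (Zt z / (eps : ℂ))]
      congr 1
      unfold Zt
      have := I_ne_zero
      field_simp
    have e2 : qf x N u (bp eps) = Hm x N u (bp eps) * Hm' x N u (bp eps) * (eps / I) := by
      unfold qf
      rw [div_eq_mul_inv _ (bp eps)]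
      congr 1
      unfold bp
      rw [inv_div]
    rw [e1, e2]
    have := I_ne_zero
    field_simp
  rw [key]

end Pool.Agent.KS6_89.Tip
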