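import Pool.Agent.KS6_89.Tip.Circ
import Pool.Graph.R_seed8.Helper766.Mean.Main

set_option autoImplicit false

namespace Pool.Agent.KS6_89.Tip

open Complex MeasureTheory Filter Topology Pool.Agent.Helper766.Mean

theorem koebe_le' {lam : ℝ} (h1 : 0 < lam) (h2 : lam < 1) {r : ℝ} (hr : 1 / 2 ≤ r)
    (hr1 : r < 1) {t : ℝ} (h0 : 0 < t) (ht : t < 2 * Real.pi) :
    ‖deriv koebe (cz r t)‖ ^ lam ≤ 2 * (1 - r) ^ (-(2 * lam)) * maj lam t := by
  have hr0 : 0 ≤ r := by linarith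
  have hz1 : ‖cz r t‖ < 1 := by rw [norm_cz hr0]; exact hr1
  have hD := one_sub_ge (t := t) hr0
  have hρ : 0 < 1 - r := by linarith
  have hD0 : 0 < ‖1 - cz r t‖ := by linarith
  rw [norm_koebe' hz1, Real.div_rpow (norm_nonneg _) (by positivity)]
  have h4 : ‖1 + cz r t‖ ≤ 2 := by
    calc ‖1 + cz r t‖ ≤ ‖(1 : ℂ)‖ + ‖cz r t‖ := norm_add_le _ _
      _ ≤ 2 := by rw [norm_one]; linarith
  have h5 : ‖1 + cz r t‖ ^ lam ≤ 2 := by
    calc ‖1 + cz r t‖ ^ lam ≤ 2 ^ lam := Real.rpow_le_rpow (norm_nonneg _) h4 h1.le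
      _ ≤ 2 ^ (1 : ℝ) := Real.rpow_le_rpow_of_exponent_le (by norm_num) h2.le
      _ = 2 := Real.rpow_one _
  have h6 : (‖1 - cz r t‖ ^ 3) ^ lam = ‖1 - cz r t‖ ^ (3 * lam) := by
    rw [← Real.rpow_natCast, ← Real.rpow_mul hD0.le]
    norm_num
  have h7 : ‖1 + cz r t‖ ^ lam / (‖1 - cz r t‖ ^ 3) ^ lam =
      ‖1 + cz r t‖ ^ lam * (‖1 - cz r t‖ ^ (-(2 * lam)) * ‖1 - cz r t‖ ^ (-lam)) := by
    rw [h6, ← Real.rpow_add hD0, div_eq_mul_inv, ← Real.rpow_neg hD0.le]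
    congr 2; ring
  have h8 : ‖1 - cz r t‖ ^ (-lam) ≤ maj lam t := rpow_neg_le_maj h1 hr h0 ht
  have h9 : ‖1 - cz r t‖ ^ (-(2 * lam)) ≤ (1 - r) ^ (-(2 * lam)) :=
    Real.rpow_le_rpow_of_nonpos hρ hD (by linarith)
  rw [h7]
  calc ‖1 + cz r t‖ ^ lam * (‖1 - cz r t‖ ^ (-(2 * lam)) * ‖1 - cz r t‖ ^ (-lam))
      ≤ 2 * ((1 - r) ^ (-(2 * lam)) * maj lam t) := by
        apply mul_le_mul h5 _ (by positivity) (by norm_num)
        exact mul_le_mul h9 h8 (by positivity) (by positivity)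
    _ = _ := by ring

theorem koebe_integral_le' {lam : ℝ} (h1 : 0 < lam) (h2 : lam < 1) {r : ℝ}
    (hr : 1 / 2 ≤ r) (hr1 : r < 1) :
    A lam r koebe ≤ 2 * (1 - r) ^ (-(2 * lam)) * ∫ t in (0 : ℝ)..(2 * Real.pi), maj lam t := by
  have hp := Real.pi_pos
  unfold A
  rw [← intervalIntegral.integral_const_mul]
  apply intervalIntegral.integral_mono_on_of_le_Ioo (by positivity)
  · exact (continuous_integrand koebe_diff (by linarith) hr1 (by linarith)).intervalIntegrable _ _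
  · exact (maj_integrable (by linarith)).const_mul _
  · intro t ht
    exact koebe_le' h1 h2 hr hr1 ht.1 ht.2

/-- the Poisson-like weight -/
noncomputable def mw (e t : ℝ) : ℝ := (1 + ((t - Real.pi) / (2 * Real.pi * e)) ^ 2)⁻¹

theorem continuous_mw (e : ℝ) : Continuous (mw e) := by
  unfold mw
  refine Continuous.inv₀ (by fun_prop) (fun t => ?_)
  have := sq_nonneg ((t - Real.pi) / (2 * Real.pi * e))
  linarith

theorem integral_mw {e : ℝ} (he : 0 < e) :
    ∫ t in (0 : ℝ)..(2 * Real.pi), mw e t ≤ 2 * Real.pi ^ 2 * e := by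
  have hp := Real.pi_pos
  have hc : (2 * Real.pi * e) ≠ 0 := by positivity
  have h1 : ∫ t in (0 : ℝ)..(2 * Real.pi), mw e t =
      (2 * Real.pi * e) * (Real.arctan ((2 * Real.pi - Real.pi) / (2 * Real.pi * e)) -
        Real.arctan ((0 - Real.pi) / (2 * Real.pi * e))) := by
    have h2 : ∀ t, HasDerivAt (fun t => (2 * Real.pi * e) *
        Real.arctan ((t - Real.pi) / (2 * Real.pi * e))) (mw e t) t := by
      intro t
      have h3 : HasDerivAt (fun t => (t - Real.pi) / (2 * Real.pi * e)) (1 / (2 * Real.pi * e)) t :=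
        ((hasDerivAt_id t).sub_const _).div_const _
      have h4 := (h3.arctan).const_mul (2 * Real.pi * e)
      refine h4.congr_deriv ?_
      unfold mw
      have : 1 + ((t - Real.pi) / (2 * Real.pi * e)) ^ 2 ≠ 0 := by positivity
      field_simp
    rw [intervalIntegral.integral_eq_sub_of_hasDerivAt (fun t _ => h2 t)
      ((continuous_mw e).intervalIntegrable _ _)]
    ring
  rw [h1]
  have a1 := Real.arctan_lt_pi_div_two ((2 * Real.pi - Real.pi) / (2 * Real.pi * e))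
  have a2 := Real.neg_pi_div_two_lt_arctan ((0 - Real.pi) / (2 * Real.pi * e))
  have a3 : Real.arctan ((2 * Real.pi - Real.pi) / (2 * Real.pi * e)) -
        Real.arctan ((0 - Real.pi) / (2 * Real.pi * e)) ≤ Real.pi := by linarith
  calc _ ≤ (2 * Real.pi * e) * Real.pi := by gcongr
    _ = _ := by ring

/-- the pointwise inequality -/
theorem pointwise' {lam : ℝ} (h1 : 2 / 5 < lam) (h2 : lam < 1) {x N r t : ℝ} (hx : 0 ≤ x)
    (hN : 1 ≤ N) (hxN : x * N ≤ 1 / 200) (hr : 1 / 2 ≤ r) (hr1 : r < 1)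
    (he1 : N * (1 - r) ≤ 1 / 3) (h0 : 0 ≤ t) (ht : t ≤ 2 * Real.pi) :
    lam ^ 2 / 2 * (‖deriv koebe (cz r t)‖ ^ lam * ‖bt x N (zt (N * (1 - r)) r t)‖ ^ 2) ≤
      (1 + 12 * x * (N * (1 - r)) ^ 4) *
        (‖deriv (Fs x N (N * (1 - r)) 1) (cz r t)‖ ^ lam +
        ‖deriv (Fs x N (N * (1 - r)) (-1)) (cz r t)‖ ^ lam +
        ‖deriv (Fs x N (N * (1 - r)) I) (cz r t)‖ ^ lam +
        ‖deriv (Fs x N (N * (1 - r)) (-I)) (cz r t)‖ ^ lam) -
      4 * ‖deriv koebe (cz r t)‖ ^ lam +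
      176 * x * (4 * (N * (1 - r)) ^ lam * N ^ (1 - lam) * mw (N * (1 - r)) t +
        2 * (N * (1 - r)) ^ 4) := by
  have hl0 : 0 < lam := by linarith
  have hr0 : 0 ≤ r := by linarith
  have hN0 : 0 < N := by linarith
  have hρ : 0 < 1 - r := by linarith
  have hIm := im_zt_lower (t := t) hN0 hr0 hr1
  have hloss := loss_bound hl0 h2.le hN hr hr1 h0 ht (by linarith)
  have hx1 : x ≤ 1 / 200 := by nlinarith
  have hx4 : x * (N + 4) ≤ 1 := by nlinarith
  have hx6 : x * (N + 6) < 1 := by nlinarith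
  set e := N * (1 - r) with he
  have he0 : 0 < e := by positivity
  have hz1 : ‖cz r t‖ < 1 := by rw [norm_cz hr0]; exact hr1
  have hImp : 0 < (zt e r t).im := lt_of_lt_of_le (by positivity) hIm
  have hsum := sum_qf h1.le h2.le hx hN hxN hImp hIm
  set W := ‖deriv koebe (cz r t)‖ ^ lam with hW
  have hW0 : 0 ≤ W := by positivity
  have one : ∀ u : ℂ, ‖u‖ = 1 → W * ‖qf x N u (zt e r t)‖ ^ lam ≤
      (1 + 12 * x * e ^ 4) * ‖deriv (Fs x N e u) (cz r t)‖ ^ lam := by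
    intro u hu
    have a1 := norm_deriv_Fs hx hN0.le hx6 hu he0 hz1
    have a2 := qf_base hx (by linarith) hN0.le hx4 hu he0
    have a3 : 0 < ‖qf x N u (bp e)‖ :=
      norm_pos_iff.2 (qf_ne hx hN0.le hx6 hu (im_bp he0))
    have a4 : ‖qf x N u (bp e)‖ ^ lam ≤ 1 + 12 * x * e ^ 4 := by
      have b1 : 1 ≤ 1 + 12 * x * e ^ 4 := by
        have : 0 ≤ 12 * x * e ^ 4 := by positivity
        linarith
      calc ‖qf x N u (bp e)‖ ^ lam ≤ (1 + 12 * x * e ^ 4) ^ lam :=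
            Real.rpow_le_rpow a3.le a2 hl0.le
        _ ≤ (1 + 12 * x * e ^ 4) ^ (1 : ℝ) := Real.rpow_le_rpow_of_exponent_le b1 h2.le
        _ = _ := Real.rpow_one _
    have a5 : W * ‖qf x N u (zt e r t)‖ ^ lam =
        ‖qf x N u (bp e)‖ ^ lam * ‖deriv (Fs x N e u) (cz r t)‖ ^ lam := by
      have a6 : ‖deriv (Fs x N e u) (cz r t)‖ = ‖deriv koebe (cz r t)‖ *
          ‖qf x N u (zt e r t)‖ / ‖qf x N u (bp e)‖ := a1
      rw [a6, Real.div_rpow (by positivity) a3.le, Real.mul_rpow (norm_nonneg _) (norm_nonneg _)]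
      have : ‖qf x N u (bp e)‖ ^ lam ≠ 0 := (Real.rpow_pos_of_pos a3 _).ne'
      field_simp
      rw [hW]
      ring
    rw [a5]
    exact mul_le_mul_of_nonneg_right a4 (by positivity)
  have o1 := one 1 norm_one
  have o2 := one (-1) (by simp)
  have o3 := one I (by simp)
  have o4 := one (-I) (by simp)
  have m1 := mul_le_mul_of_nonneg_left hsum hW0
  have m2 : W * (176 * x / (‖zt e r t‖ * ‖zt e r t + I‖ ^ 3)) ≤
      176 * x * (4 * e ^ lam * N ^ (1 - lam) * mw e t + 2 * e ^ 4) := by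
    have b1 : W * (176 * x / (‖zt e r t‖ * ‖zt e r t + I‖ ^ 3)) =
        176 * x * (W / (‖zt e r t‖ * ‖zt e r t + I‖ ^ 3)) := by ring
    rw [b1]
    exact mul_le_mul_of_nonneg_left hloss (by positivity)
  have m3 : W * (4 + lam ^ 2 / 2 * ‖bt x N (zt e r t)‖ ^ 2 -
      176 * x / (‖zt e r t‖ * ‖zt e r t + I‖ ^ 3)) =
      4 * W + lam ^ 2 / 2 * (W * ‖bt x N (zt e r t)‖ ^ 2) -
      W * (176 * x / (‖zt e r t‖ * ‖zt e r t + I‖ ^ 3)) := by ring
  rw [m3] at m1
  have m4 : W * (‖qf x N 1 (zt e r t)‖ ^ lam + ‖qf x N (-1) (zt e r t)‖ ^ lam +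
      ‖qf x N I (zt e r t)‖ ^ lam + ‖qf x N (-I) (zt e r t)‖ ^ lam) =
      W * ‖qf x N 1 (zt e r t)‖ ^ lam + W * ‖qf x N (-1) (zt e r t)‖ ^ lam +
      W * ‖qf x N I (zt e r t)‖ ^ lam + W * ‖qf x N (-I) (zt e r t)‖ ^ lam := by ring
  rw [m4] at m1
  have m5 := m1.trans (add_le_add (add_le_add (add_le_add o1 o2) o3) o4)
  have m6 : (1 + 12 * x * e ^ 4) * ‖deriv (Fs x N e 1) (cz r t)‖ ^ lam +
      (1 + 12 * x * e ^ 4) * ‖deriv (Fs x N e (-1)) (cz r t)‖ ^ lam +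
      (1 + 12 * x * e ^ 4) * ‖deriv (Fs x N e I) (cz r t)‖ ^ lam +
      (1 + 12 * x * e ^ 4) * ‖deriv (Fs x N e (-I)) (cz r t)‖ ^ lam =
      (1 + 12 * x * e ^ 4) * (‖deriv (Fs x N e 1) (cz r t)‖ ^ lam +
        ‖deriv (Fs x N e (-1)) (cz r t)‖ ^ lam + ‖deriv (Fs x N e I) (cz r t)‖ ^ lam +
        ‖deriv (Fs x N e (-I)) (cz r t)‖ ^ lam) := by ring
  rw [m6] at m5
  linarith

theorem exists_of_ineq {lam : ℝ} (h1 : 2 / 5 < lam) (h2 : lam < 1) {x N r : ℝ} (hx : 0 ≤ x)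
    (hN : 1 ≤ N) (hxN : x * N ≤ 1 / 200) (hr : 1 / 2 ≤ r) (hr1 : r < 1)
    (he1 : N * (1 - r) ≤ 1 / 3)
    (hfin : 48 * x * (N * (1 - r)) ^ 4 * A lam r koebe +
      176 * x * (4 * (N * (1 - r)) ^ lam * N ^ (1 - lam) * (2 * Real.pi ^ 2 * (N * (1 - r))) +
        2 * (N * (1 - r)) ^ 4 * (2 * Real.pi)) <
      (N * (1 - r)) * (lam ^ 2 / 2 * ((N * (1 - r)) ^ lam / 32 * (x * N / 2048) ^ 2))) :
    ∃ f : ℂ → ℂ, ClassS f ∧ A lam r koebe < A lam r f := by
  have hp := Real.pi_pos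
  have hp3 := Real.pi_gt_three
  have hl0 : 0 < lam := by linarith
  have hr0 : 0 ≤ r := by linarith
  have hN0 : 0 < N := by linarith
  have hρ : 0 < 1 - r := by linarith
  have hx6 : x * (N + 6) < 1 := by nlinarith
  have hpt := fun t (h0 : (0 : ℝ) ≤ t) (ht : t ≤ 2 * Real.pi) =>
    pointwise' h1 h2 hx hN hxN hr hr1 he1 h0 ht
  have hgain := fun t => gain_bound (t := t) hl0 h2.le hx hN hr hr1 he1
  set e := N * (1 - r) with he
  have he0 : 0 < e := by positivity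
  have hS : ∀ u : ℂ, ‖u‖ = 1 → ClassS (Fs x N e u) := fun u hu =>
    classS_Fs hx hN0.le hx6 hu he0
  by_contra hcon
  push Not at hcon
  have cK : Continuous (fun t : ℝ => ‖deriv koebe (cz r t)‖ ^ lam) :=
    continuous_integrand koebe_diff hr0 hr1 hl0.le
  have cF : ∀ u : ℂ, ‖u‖ = 1 → Continuous (fun t : ℝ =>
      ‖deriv (Fs x N e u) (cz r t)‖ ^ lam) := fun u hu =>
    continuous_integrand (hS u hu).1 hr0 hr1 hl0.le
  have c1 := cF 1 norm_one
  have c2 := cF (-1) (by simp)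
  have c3 := cF I (by simp)
  have c4 := cF (-I) (by simp)
  have cm := continuous_mw e
  have c5 : Continuous (fun t : ℝ => 4 * e ^ lam * N ^ (1 - lam) * mw e t) :=
    continuous_const.mul cm
  have c6 : Continuous (fun _ : ℝ => 2 * e ^ 4) := continuous_const
  set c : ℝ := 1 + 12 * x * e ^ 4 with hc
  set k1 : ℝ := 4 * e ^ lam * N ^ (1 - lam) with hk1
  set k2 : ℝ := 2 * e ^ 4 with hk2
  set h : ℝ → ℝ := fun t => c * (‖deriv (Fs x N e 1) (cz r t)‖ ^ lam +
        ‖deriv (Fs x N e (-1)) (cz r t)‖ ^ lam +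
        ‖deriv (Fs x N e I) (cz r t)‖ ^ lam +
        ‖deriv (Fs x N e (-I)) (cz r t)‖ ^ lam) -
      4 * ‖deriv koebe (cz r t)‖ ^ lam + 176 * x * (k1 * mw e t + k2) with hh
  have c12 : Continuous (fun t : ℝ => ‖deriv (Fs x N e 1) (cz r t)‖ ^ lam +
      ‖deriv (Fs x N e (-1)) (cz r t)‖ ^ lam) := c1.add c2
  have c123 : Continuous (fun t : ℝ => ‖deriv (Fs x N e 1) (cz r t)‖ ^ lam +
      ‖deriv (Fs x N e (-1)) (cz r t)‖ ^ lam + ‖deriv (Fs x N e I) (cz r t)‖ ^ lam) := c12.add c3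
  have c1234 : Continuous (fun t : ℝ => ‖deriv (Fs x N e 1) (cz r t)‖ ^ lam +
      ‖deriv (Fs x N e (-1)) (cz r t)‖ ^ lam + ‖deriv (Fs x N e I) (cz r t)‖ ^ lam +
      ‖deriv (Fs x N e (-I)) (cz r t)‖ ^ lam) := c123.add c4
  have ca : Continuous (fun t : ℝ => c * (‖deriv (Fs x N e 1) (cz r t)‖ ^ lam +
      ‖deriv (Fs x N e (-1)) (cz r t)‖ ^ lam + ‖deriv (Fs x N e I) (cz r t)‖ ^ lam +
      ‖deriv (Fs x N e (-I)) (cz r t)‖ ^ lam)) := continuous_const.mul c1234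
  have cb : Continuous (fun t : ℝ => 4 * ‖deriv koebe (cz r t)‖ ^ lam) := continuous_const.mul cK
  have cc : Continuous (fun t : ℝ => 176 * x * (k1 * mw e t + k2)) :=
    continuous_const.mul ((continuous_const.mul cm).add continuous_const)
  have cab : Continuous (fun t : ℝ => c * (‖deriv (Fs x N e 1) (cz r t)‖ ^ lam +
      ‖deriv (Fs x N e (-1)) (cz r t)‖ ^ lam + ‖deriv (Fs x N e I) (cz r t)‖ ^ lam +
      ‖deriv (Fs x N e (-I)) (cz r t)‖ ^ lam) - 4 * ‖deriv koebe (cz r t)‖ ^ lam) := ca.sub cb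
  have ch : Continuous h := cab.add cc
  have hlow : ∀ t ∈ Set.Icc (0 : ℝ) (2 * Real.pi),
      lam ^ 2 / 2 * (‖deriv koebe (cz r t)‖ ^ lam * ‖bt x N (zt e r t)‖ ^ 2) ≤ h t :=
    fun t ht => hpt t ht.1 ht.2
  have hnn : ∀ t ∈ Set.Icc (0 : ℝ) (2 * Real.pi), 0 ≤ h t := fun t ht =>
    le_trans (by positivity) (hlow t ht)
  -- the value of the integral
  have hval : ∫ t in (0 : ℝ)..(2 * Real.pi), h t =
      c * (A lam r (Fs x N e 1) + A lam r (Fs x N e (-1)) + A lam r (Fs x N e I) +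
        A lam r (Fs x N e (-I))) - 4 * A lam r koebe +
      176 * x * (k1 * (∫ t in (0 : ℝ)..(2 * Real.pi), mw e t) + k2 * (2 * Real.pi)) := by
    rw [hh, intervalIntegral.integral_add (cab.intervalIntegrable _ _)
        (cc.intervalIntegrable _ _),
      intervalIntegral.integral_sub (ca.intervalIntegrable _ _) (cb.intervalIntegrable _ _),
      intervalIntegral.integral_const_mul, intervalIntegral.integral_const_mul,
      intervalIntegral.integral_const_mul,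
      intervalIntegral.integral_add (c123.intervalIntegrable _ _) (c4.intervalIntegrable _ _),
      intervalIntegral.integral_add (c12.intervalIntegrable _ _) (c3.intervalIntegrable _ _),
      intervalIntegral.integral_add (c1.intervalIntegrable _ _) (c2.intervalIntegrable _ _),
      intervalIntegral.integral_add (c5.intervalIntegrable _ _) (c6.intervalIntegrable _ _),
      intervalIntegral.integral_const_mul, intervalIntegral.integral_const, smul_eq_mul]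
    unfold A cz
    ring
  -- the lower bound of the integral
  have hsub1 : Real.pi + e ≤ Real.pi + 2 * e := by linarith
  have hsub2 : Real.pi + 2 * e ≤ 2 * Real.pi := by linarith
  have hI1 : ∫ t in (Real.pi + e)..(Real.pi + 2 * e), h t ≤
      ∫ t in (0 : ℝ)..(2 * Real.pi), h t := by
    apply intervalIntegral.integral_mono_interval (by linarith) hsub1 hsub2
    · rw [Filter.EventuallyLE, ae_restrict_iff' measurableSet_Ioc]
      exact Filter.Eventually.of_forall fun t ht => hnn t ⟨ht.1.le, ht.2⟩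
    · exact ch.intervalIntegrable _ _
  have hI2 : e * (lam ^ 2 / 2 * (e ^ lam / 32 * (x * N / 2048) ^ 2)) ≤
      ∫ t in (Real.pi + e)..(Real.pi + 2 * e), h t := by
    have h3 : ∫ t in (Real.pi + e)..(Real.pi + 2 * e),
        (fun _ : ℝ => lam ^ 2 / 2 * (e ^ lam / 32 * (x * N / 2048) ^ 2)) t ≤
        ∫ t in (Real.pi + e)..(Real.pi + 2 * e), h t := by
      apply intervalIntegral.integral_mono_on hsub1
      · exact continuous_const.intervalIntegrable _ _
      · exact ch.intervalIntegrable _ _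
      · intro t ht
        refine le_trans ?_ (hlow t ⟨by linarith [ht.1], by linarith [ht.2]⟩)
        exact mul_le_mul_of_nonneg_left (hgain t ht.1 ht.2) (by positivity)
    rw [intervalIntegral.integral_const, smul_eq_mul] at h3
    have h4 : Real.pi + 2 * e - (Real.pi + e) = e := by ring
    rwa [h4] at h3
  have q : ∀ u : ℂ, ‖u‖ = 1 → A lam r (Fs x N e u) ≤ A lam r koebe := fun u hu =>
    hcon _ (hS u hu)
  have q1 := q 1 norm_one
  have q2 := q (-1) (by simp)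
  have q3 := q I (by simp)
  have q4 := q (-I) (by simp)
  have hc0 : 0 ≤ c := by positivity
  have q5 : c * (A lam r (Fs x N e 1) + A lam r (Fs x N e (-1)) + A lam r (Fs x N e I) +
        A lam r (Fs x N e (-I))) ≤ c * (4 * A lam r koebe) :=
    mul_le_mul_of_nonneg_left (by linarith) hc0
  have hmI := integral_mw he0
  have q6 : 176 * x * (k1 * (∫ t in (0 : ℝ)..(2 * Real.pi), mw e t) + k2 * (2 * Real.pi)) ≤
      176 * x * (k1 * (2 * Real.pi ^ 2 * e) + k2 * (2 * Real.pi)) := by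
    have : 0 ≤ k1 := by positivity
    gcongr
  have q7 : c * (4 * A lam r koebe) - 4 * A lam r koebe = 48 * x * e ^ 4 * A lam r koebe := by
    rw [hc]; ring
  rw [hval] at hI1
  linarith

/-- choice of the frequency -/
theorem exists_freq {lam G : ℝ} (h1 : 0 < lam) (hG : 0 < G) (C : ℝ) :
    ∃ N : ℝ, 1 ≤ N ∧ C * N ^ (-lam) < G := by
  have h2 : Tendsto (fun N : ℝ => C * N ^ (-lam)) atTop (𝓝 (C * 0)) :=
    (tendsto_rpow_neg_atTop h1).const_mul C
  rw [mul_zero] at h2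
  obtain ⟨N, hN⟩ := ((h2.eventually (gt_mem_nhds hG)).and (eventually_ge_atTop 1)).exists
  exact ⟨N, hN.2, hN.1⟩

theorem exists_r0 {lam : ℝ} (h1 : 2 / 5 < lam) (h2 : lam < 1) :
    ∃ r₀ : ℝ, 1 / 2 ≤ r₀ ∧ r₀ < 1 ∧ ∀ r ∈ Set.Ioo r₀ 1,
      ∃ f : ℂ → ℂ, ClassS f ∧ A lam r koebe < A lam r f := by
  have hp := Real.pi_pos
  have hl0 : 0 < lam := by linarith
  set M := ∫ t in (0 : ℝ)..(2 * Real.pi), maj lam t with hM
  set G : ℝ := lam ^ 2 / 2 * (1 / 32 * (1 / 409600) ^ 2) with hG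
  have hG0 : 0 < G := by positivity
  obtain ⟨N, hN, hNG⟩ := exists_freq (C := 176 / 200 * (8 * Real.pi ^ 2)) hl0 (half_pos hG0)
  have hN0 : 0 < N := by linarith
  -- the terms that tend to zero with `ρ = 1 - r`
  have ht1 : Tendsto (fun ρ : ℝ => ρ ^ (3 - 3 * lam)) (𝓝 0) (𝓝 0) := by
    have := (Real.continuousAt_rpow_const 0 (3 - 3 * lam) (Or.inr (by linarith))).tendsto
    rwa [Real.zero_rpow (by linarith)] at this
  have ht2 : Tendsto (fun ρ : ℝ => ρ ^ (3 - lam)) (𝓝 0) (𝓝 0) := by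
    have := (Real.continuousAt_rpow_const 0 (3 - lam) (Or.inr (by linarith))).tendsto
    rwa [Real.zero_rpow (by linarith)] at this
  have ht3 : Tendsto (fun ρ : ℝ => 48 / (200 * N) * (N ^ (3 - lam) * (2 * M)) * ρ ^ (3 - 3 * lam) +
      176 / (200 * N) * (4 * Real.pi) * N ^ (3 - lam) * ρ ^ (3 - lam)) (𝓝 0)
      (𝓝 (48 / (200 * N) * (N ^ (3 - lam) * (2 * M)) * 0 +
        176 / (200 * N) * (4 * Real.pi) * N ^ (3 - lam) * 0)) :=
    (ht1.const_mul _).add (ht2.const_mul _)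
  rw [mul_zero, mul_zero, add_zero] at ht3
  have hev := (ht3.eventually (gt_mem_nhds (half_pos hG0))).and
    ((gt_mem_nhds (show (0 : ℝ) < 1 / (3 * N) by positivity)))
  obtain ⟨d, hd0, hd⟩ := Metric.eventually_nhds_iff.1 hev
  refine ⟨max (1 / 2) (1 - d), le_max_left _ _, max_lt (by norm_num) (by linarith), ?_⟩
  intro r hr
  have hr2 : 1 / 2 ≤ r := ((le_max_left _ _).trans hr.1.le)
  have hrd : 1 - d < r := lt_of_le_of_lt (le_max_right _ _) hr.1
  have hr1 : r < 1 := hr.2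
  have hρ : 0 < 1 - r := by linarith
  obtain ⟨hsmall, hρN⟩ := hd (y := 1 - r) (by
    rw [Real.dist_eq, sub_zero, abs_of_pos hρ]; linarith)
  have he1 : N * (1 - r) ≤ 1 / 3 := by
    have := mul_lt_mul_of_pos_left hρN hN0
    have h3 : N * (1 / (3 * N)) = 1 / 3 := by field_simp
    linarith
  have hxN : 1 / (200 * N) * N = 1 / 200 := by field_simp
  refine exists_of_ineq h1 h2 (x := 1 / (200 * N)) (N := N) (by positivity) hN hxN.le hr2 hr1 he1 ?_
  have hA := koebe_integral_le' hl0 h2 hr2 hr1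
  rw [← hM] at hA
  set ρ := 1 - r with hρdef
  set e := N * ρ with he
  have he0 : 0 < e := by positivity
  -- powers of `e`
  have he4 : e ^ 4 = e * e ^ lam * e ^ (3 - lam) := by
    rw [mul_assoc, ← Real.rpow_add he0]
    have : lam + (3 - lam) = ((3 : ℕ) : ℝ) := by push_cast; ring
    rw [this, Real.rpow_natCast]
    ring
  have he3 : e ^ (3 - lam) = N ^ (3 - lam) * ρ ^ (3 - lam) := Real.mul_rpow hN0.le hρ.le
  have hρ3 : ρ ^ (3 - lam) * ρ ^ (-(2 * lam)) = ρ ^ (3 - 3 * lam) := by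
    rw [← Real.rpow_add hρ]; congr 1; ring
  have hNl : N ^ (1 - lam) = N * N ^ (-lam) := by
    rw [sub_eq_add_neg, Real.rpow_add hN0, Real.rpow_one]
  have hel : 0 < e * e ^ lam := by positivity
  have hxN2 : 1 / (200 * N) * N / 2048 = 1 / 409600 := by rw [hxN]; norm_num
  have k1 : 48 * (1 / (200 * N)) * e ^ 4 * A lam r koebe ≤
      (e * e ^ lam) * (48 / (200 * N) * (N ^ (3 - lam) * (2 * M)) * ρ ^ (3 - 3 * lam)) := by
    calc 48 * (1 / (200 * N)) * e ^ 4 * A lam r koebe ≤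
        48 * (1 / (200 * N)) * e ^ 4 * (2 * ρ ^ (-(2 * lam)) * M) := by gcongr
      _ = (e * e ^ lam) * (48 / (200 * N) * (N ^ (3 - lam) * (2 * M)) *
          (ρ ^ (3 - lam) * ρ ^ (-(2 * lam)))) := by rw [he4, he3]; ring
      _ = _ := by rw [hρ3]
  have k2 : 176 * (1 / (200 * N)) * (4 * e ^ lam * N ^ (1 - lam) * (2 * Real.pi ^ 2 * e) +
        2 * e ^ 4 * (2 * Real.pi)) =
      (e * e ^ lam) * (176 / 200 * (8 * Real.pi ^ 2) * N ^ (-lam)) +
      (e * e ^ lam) * (176 / (200 * N) * (4 * Real.pi) * N ^ (3 - lam) * ρ ^ (3 - lam)) := by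
    rw [he4, he3, hNl]
    field_simp
    ring
  have k3 : e * (lam ^ 2 / 2 * (e ^ lam / 32 * (1 / (200 * N) * N / 2048) ^ 2)) =
      (e * e ^ lam) * G := by
    rw [hxN2, hG]; ring
  rw [k2, k3]
  have k4 : (e * e ^ lam) * (48 / (200 * N) * (N ^ (3 - lam) * (2 * M)) * ρ ^ (3 - 3 * lam)) +
      ((e * e ^ lam) * (176 / 200 * (8 * Real.pi ^ 2) * N ^ (-lam)) +
      (e * e ^ lam) * (176 / (200 * N) * (4 * Real.pi) * N ^ (3 - lam) * ρ ^ (3 - lam))) <
      (e * e ^ lam) * G := by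
    rw [← mul_add, ← mul_add]
    apply mul_lt_mul_of_pos_left _ hel
    linarith
  linarith

/-- the main result -/
theorem main_tip {lam : ℝ} (h1 : 2 / 5 < lam) (h2 : lam < 1) :
    (∃ r₀ : ℝ, r₀ < 1 ∧ ∀ r ∈ Set.Ioo r₀ 1, 0 < r ∧
      ∃ f : ℂ → ℂ, ClassS f ∧ intMean lam r koebe < intMean lam r f) ∧ 1 < bestConst lam := by
  have hp := Real.pi_pos
  have hl : 0 < lam := by linarith
  obtain ⟨r₀, hr0, hr1, hall⟩ := exists_r0 h1 h2
  have hmean : ∀ (r : ℝ) (φ : ℂ → ℂ),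
      intMean lam r φ = ((1 / (2 * Real.pi)) * A lam r φ) ^ (1 / lam) := fun r φ => rfl
  have hA0 : ∀ (r : ℝ) (φ : ℂ → ℂ), 0 ≤ A lam r φ := fun r φ =>
    intervalIntegral.integral_nonneg (by positivity) (fun t _ => by positivity)
  have key : ∀ r ∈ Set.Ioo r₀ 1, 0 < r ∧
      ∃ f : ℂ → ℂ, ClassS f ∧ intMean lam r koebe < intMean lam r f := by
    intro r hr
    obtain ⟨f, hf, hlt⟩ := hall r hr
    refine ⟨by linarith [hr.1], f, hf, ?_⟩
    rw [hmean, hmean]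
    apply Real.rpow_lt_rpow _ _ (by positivity)
    · exact mul_nonneg (by positivity) (hA0 r _)
    · exact mul_lt_mul_of_pos_left hlt (by positivity)
  refine ⟨⟨r₀, hr1, key⟩, ?_⟩
  -- the best constant
  set r := (r₀ + 1) / 2 with hr
  have hrI : r ∈ Set.Ioo r₀ 1 := ⟨by rw [hr]; linarith, by rw [hr]; linarith⟩
  obtain ⟨hrpos, f, hf, hlt⟩ := key r hrI
  have hkpos : 0 < intMean lam r koebe := by
    rw [hmean]
    apply Real.rpow_pos_of_pos
    apply mul_pos (by positivity)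
    unfold A
    have cK := continuous_integrand koebe_diff hrpos.le hrI.2 hl.le
    apply intervalIntegral.intervalIntegral_pos_of_pos (cK.intervalIntegrable _ _) _ (by positivity)
    intro t
    have hz : ‖(r : ℂ) * exp ((t : ℂ) * I)‖ < 1 := by rw [norm_circ hrpos.le]; exact hrI.2
    apply Real.rpow_pos_of_pos
    rw [deriv_koebe hz]
    exact norm_pos_iff.2 (div_ne_zero (one_add_ne hz) (pow_ne_zero 3 (one_sub_ne hz)))
  have h5 : 1 < intMean lam r f / intMean lam r koebe := by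
    rw [lt_div_iff₀ hkpos]; linarith
  have h6 : (1 : ENNReal) < ENNReal.ofReal (intMean lam r f / intMean lam r koebe) := by
    rw [← ENNReal.ofReal_one]
    exact (ENNReal.ofReal_lt_ofReal_iff (by linarith)).2 h5
  refine h6.trans_le ?_
  unfold bestConst
  exact le_iSup_of_le f (le_iSup_of_le hf (le_iSup_of_le r (le_iSup_of_le ⟨hrpos, hrI.2⟩ le_rfl)))

end Pool.Agent.KS6_89.Tip
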