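import Pool.Agent.KS6_89.Tip.Avg

set_option autoImplicit false

namespace Pool.Agent.KS6_89.Tip

open Complex Pool.Agent.Helper766.Mean

/-! ### The perturbation in the upper half plane -/

/-- the perturbation: the first term has imaginary part at least `|ζ + i|^{-4}` -/
noncomputable def Psi (N : ℝ) (u ζ : ℂ) : ℂ :=
  -(ζ + 2 * I) / (2 * (ζ + I) ^ 2) + u * exp (I * N * ζ) / (ζ + I) ^ 4

noncomputable def Psi' (N : ℝ) (u ζ : ℂ) : ℂ :=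
  (ζ + 3 * I) / (2 * (ζ + I) ^ 3) + u * exp (I * N * ζ) * (I * N / (ζ + I) ^ 4 - 4 / (ζ + I) ^ 5)

theorem s_ne {ζ : ℂ} (h : 0 < ζ.im) : ζ + I ≠ 0 := by
  intro h0
  have := congrArg Complex.im h0
  simp at this
  linarith

theorem norm_s_sq (ζ : ℂ) : ‖ζ + I‖ ^ 2 = ζ.re ^ 2 + (ζ.im + 1) ^ 2 := by
  rw [← Complex.normSq_eq_norm_sq, Complex.normSq_apply]
  simp
  ring

theorem norm_sq' (ζ : ℂ) : ‖ζ‖ ^ 2 = ζ.re ^ 2 + ζ.im ^ 2 := by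
  rw [← Complex.normSq_eq_norm_sq, Complex.normSq_apply]
  ring

theorem one_le_s {ζ : ℂ} (h : 0 < ζ.im) : 1 ≤ ‖ζ + I‖ := by
  have h1 : (1 : ℝ) ^ 2 ≤ ‖ζ + I‖ ^ 2 := by
    rw [norm_s_sq]; nlinarith [sq_nonneg ζ.re]
  exact le_of_sq_le_sq h1 (norm_nonneg _)

theorem norm_le_s {ζ : ℂ} (h : 0 < ζ.im) : ‖ζ‖ ≤ ‖ζ + I‖ := by
  have h1 : ‖ζ‖ ^ 2 ≤ ‖ζ + I‖ ^ 2 := by
    rw [norm_s_sq, norm_sq']; nlinarith
  exact le_of_sq_le_sq h1 (norm_nonneg _)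

theorem one_add_sq_le_s {ζ : ℂ} (h : 0 < ζ.im) : 1 + ‖ζ‖ ^ 2 ≤ ‖ζ + I‖ ^ 2 := by
  rw [norm_s_sq, norm_sq']; nlinarith

theorem norm_exp_I (N : ℝ) (ζ : ℂ) : ‖exp (I * N * ζ)‖ = Real.exp (-(N * ζ.im)) := by
  rw [Complex.norm_exp]
  congr 1
  simp

theorem norm_exp_I_le {N : ℝ} (hN : 0 ≤ N) {ζ : ℂ} (h : 0 < ζ.im) : ‖exp (I * N * ζ)‖ ≤ 1 := by
  rw [norm_exp_I, Real.exp_le_one_iff]
  have := mul_nonneg hN h.le
  linarith

theorem hasDerivAt_Psi (N : ℝ) (u : ℂ) {ζ : ℂ} (h : 0 < ζ.im) :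
    HasDerivAt (Psi N u) (Psi' N u ζ) ζ := by
  have hs := s_ne h
  have h1 : HasDerivAt (fun w : ℂ => w + I) 1 ζ := (hasDerivAt_id ζ).add_const I
  have h2 : HasDerivAt (fun w : ℂ => -(w + 2 * I)) (-1) ζ := ((hasDerivAt_id ζ).add_const _).neg
  have h3 : HasDerivAt (fun w : ℂ => 2 * (w + I) ^ 2) (2 * (2 * (ζ + I))) ζ := by
    have := (h1.fun_pow 2).const_mul 2
    simpa using this
  have h4 := h2.div h3 (mul_ne_zero two_ne_zero (pow_ne_zero 2 hs))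
  have h5 : HasDerivAt (fun w : ℂ => u * exp (I * N * w)) (u * (exp (I * N * ζ) * (I * N))) ζ := by
    have := (((hasDerivAt_id ζ).const_mul (I * N)).cexp).const_mul u
    simpa using this
  have h6 : HasDerivAt (fun w : ℂ => (w + I) ^ 4) (4 * (ζ + I) ^ 3) ζ := by
    have := h1.fun_pow 4
    simpa using this
  have h7 := h5.div h6 (pow_ne_zero 4 hs)
  have h8 := h4.add h7
  have h9 : HasDerivAt (Psi N u) _ ζ := h8
  refine h9.congr_deriv ?_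
  unfold Psi'
  field_simp
  ring

/-- the imaginary part of the first term -/
theorem im_first {ζ : ℂ} (h : 0 < ζ.im) :
    1 / ‖ζ + I‖ ^ 4 ≤ (-(ζ + 2 * I) / (2 * (ζ + I) ^ 2)).im := by
  have hs := s_ne h
  have h1 := one_le_s h
  have hn := norm_s_sq ζ
  have hpos : 0 < ‖ζ + I‖ := by linarith
  -- `-(ζ+2i)/(2 s²) = -(ζ+2i) conj(s)² / (2 |s|⁴)`
  have key : -(ζ + 2 * I) / (2 * (ζ + I) ^ 2) =
      (-(ζ + 2 * I) * (starRingEnd ℂ (ζ + I)) ^ 2) / ((2 * ‖ζ + I‖ ^ 4 : ℝ) : ℂ) := by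
    have h2 : (ζ + I) * starRingEnd ℂ (ζ + I) = ((‖ζ + I‖ ^ 2 : ℝ) : ℂ) := by
      rw [Complex.mul_conj, Complex.normSq_eq_norm_sq]
    have h3 : ((2 * ‖ζ + I‖ ^ 4 : ℝ) : ℂ) = 2 * (ζ + I) ^ 2 * (starRingEnd ℂ (ζ + I)) ^ 2 := by
      have : ((2 * ‖ζ + I‖ ^ 4 : ℝ) : ℂ) = 2 * (((‖ζ + I‖ ^ 2 : ℝ) : ℂ)) ^ 2 := by
        push_cast; ring
      rw [this, ← h2]; ring
    have h4 : starRingEnd ℂ (ζ + I) ≠ 0 := (map_ne_zero _).2 hs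
    rw [h3]
    field_simp
  rw [key, Complex.div_ofReal_im]
  have h5 : (-(ζ + 2 * I) * (starRingEnd ℂ (ζ + I)) ^ 2).im =
      ζ.re ^ 2 * ζ.im + (ζ.im + 1) ^ 3 + (ζ.im + 1) ^ 2 := by
    simp [pow_two, Complex.mul_im, Complex.mul_re]
    ring
  rw [h5, div_le_div_iff₀ (by positivity) (by positivity)]
  have h6 : 2 ≤ ζ.re ^ 2 * ζ.im + (ζ.im + 1) ^ 3 + (ζ.im + 1) ^ 2 := by
    have := mul_nonneg (sq_nonneg ζ.re) h.le
    have h7 : (1 : ℝ) ≤ (ζ.im + 1) ^ 3 := one_le_pow₀ (by linarith)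
    have h8 : (1 : ℝ) ≤ (ζ.im + 1) ^ 2 := one_le_pow₀ (by linarith)
    linarith
  have h9 : 0 < ‖ζ + I‖ ^ 4 := by positivity
  nlinarith

theorem im_Psi_nonneg {N : ℝ} (hN : 0 ≤ N) {u ζ : ℂ} (hu : ‖u‖ = 1) (h : 0 < ζ.im) :
    0 ≤ (Psi N u ζ).im := by
  unfold Psi
  rw [Complex.add_im]
  have h1 := im_first h
  have h2 : ‖u * exp (I * N * ζ) / (ζ + I) ^ 4‖ ≤ 1 / ‖ζ + I‖ ^ 4 := by
    rw [norm_div, norm_mul, hu, one_mul, norm_pow]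
    have := one_le_s h
    apply div_le_div_of_nonneg_right (norm_exp_I_le hN h) (by positivity)
  have h3 := (Complex.abs_im_le_norm (u * exp (I * N * ζ) / (ζ + I) ^ 4)).trans h2
  have h4 := (abs_le.1 h3).1
  linarith

theorem norm_first' {ζ : ℂ} (h : 0 < ζ.im) :
    ‖(ζ + 3 * I) / (2 * (ζ + I) ^ 3)‖ ≤ 3 / (2 * ‖ζ + I‖ ^ 2) := by
  have h1 := one_le_s h
  have h2 : ‖ζ + 3 * I‖ ≤ 3 * ‖ζ + I‖ := by
    have : ζ + 3 * I = (ζ + I) + 2 * I := by ring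
    rw [this]
    calc ‖(ζ + I) + 2 * I‖ ≤ ‖ζ + I‖ + ‖2 * I‖ := norm_add_le _ _
      _ = ‖ζ + I‖ + 2 := by simp
      _ ≤ _ := by linarith
  rw [norm_div, norm_mul, norm_pow, div_le_div_iff₀ (by norm_num; positivity) (by positivity)]
  norm_num
  nlinarith [pow_pos (lt_of_lt_of_le one_pos h1) 2, pow_pos (lt_of_lt_of_le one_pos h1) 3]

theorem norm_second' {N : ℝ} (hN : 0 ≤ N) {u ζ : ℂ} (hu : ‖u‖ = 1) (h : 0 < ζ.im) :
    ‖u * exp (I * N * ζ) * (I * N / (ζ + I) ^ 4 - 4 / (ζ + I) ^ 5)‖ ≤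
      (N + 4) / ‖ζ + I‖ ^ 4 := by
  have h1 := one_le_s h
  have hpos : 0 < ‖ζ + I‖ := by linarith
  rw [norm_mul, norm_mul, hu, one_mul]
  have h2 : ‖I * N / (ζ + I) ^ 4 - 4 / (ζ + I) ^ 5‖ ≤ (N + 4) / ‖ζ + I‖ ^ 4 := by
    calc ‖I * N / (ζ + I) ^ 4 - 4 / (ζ + I) ^ 5‖ ≤
        ‖I * N / (ζ + I) ^ 4‖ + ‖4 / (ζ + I) ^ 5‖ := norm_sub_le _ _
      _ = N / ‖ζ + I‖ ^ 4 + 4 / ‖ζ + I‖ ^ 5 := by
        simp [abs_of_nonneg hN]
      _ ≤ N / ‖ζ + I‖ ^ 4 + 4 / ‖ζ + I‖ ^ 4 := by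
        have : ‖ζ + I‖ ^ 4 ≤ ‖ζ + I‖ ^ 5 := pow_le_pow_right₀ h1 (by norm_num)
        have := div_le_div_of_nonneg_left (by norm_num : (0 : ℝ) ≤ 4) (by positivity) this
        linarith
      _ = _ := by ring
  calc _ ≤ 1 * ((N + 4) / ‖ζ + I‖ ^ 4) :=
        mul_le_mul (norm_exp_I_le hN h) h2 (norm_nonneg _) zero_le_one
    _ = _ := one_mul _

theorem norm_Psi'_le {N : ℝ} (hN : 0 ≤ N) {u ζ : ℂ} (hu : ‖u‖ = 1) (h : 0 < ζ.im) :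
    ‖Psi' N u ζ‖ ≤ N + 6 := by
  have h1 := one_le_s h
  have h2 := norm_first' h
  have h3 := norm_second' hN hu h
  have h4 : 3 / (2 * ‖ζ + I‖ ^ 2) ≤ 3 / 2 := by
    have : (1 : ℝ) ≤ ‖ζ + I‖ ^ 2 := one_le_pow₀ h1
    rw [div_le_div_iff₀ (by positivity) (by norm_num)]
    linarith
  have h5 : (N + 4) / ‖ζ + I‖ ^ 4 ≤ N + 4 :=
    div_le_self (by linarith) (one_le_pow₀ h1)
  unfold Psi'
  refine (norm_add_le _ _).trans ?_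
  linarith

theorem norm_Psi_sub {N : ℝ} (hN : 0 ≤ N) {u a b : ℂ} (hu : ‖u‖ = 1) (ha : 0 < a.im)
    (hb : 0 < b.im) : ‖Psi N u b - Psi N u a‖ ≤ (N + 6) * ‖b - a‖ := by
  have hconv : Convex ℝ {ζ : ℂ | 0 < ζ.im} := convex_halfSpace_im_gt 0
  exact hconv.norm_image_sub_le_of_norm_hasDerivWithin_le
    (fun ζ hζ => (hasDerivAt_Psi N u hζ).hasDerivWithinAt)
    (fun ζ hζ => norm_Psi'_le hN hu hζ) ha hb

/-- the map of the half plane into itself -/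
noncomputable def Hm (x N : ℝ) (u ζ : ℂ) : ℂ := ζ + x * Psi N u ζ

noncomputable def Hm' (x N : ℝ) (u ζ : ℂ) : ℂ := 1 + x * Psi' N u ζ

theorem hasDerivAt_Hm (x N : ℝ) (u : ℂ) {ζ : ℂ} (h : 0 < ζ.im) :
    HasDerivAt (Hm x N u) (Hm' x N u ζ) ζ :=
  (hasDerivAt_id ζ).add ((hasDerivAt_Psi N u h).const_mul (x : ℂ))

theorem im_Hm {x N : ℝ} (hx : 0 ≤ x) (hN : 0 ≤ N) {u ζ : ℂ} (hu : ‖u‖ = 1) (h : 0 < ζ.im) :
    0 < (Hm x N u ζ).im := by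
  unfold Hm
  rw [Complex.add_im, Complex.im_ofReal_mul]
  have := mul_nonneg hx (im_Psi_nonneg hN hu h)
  linarith

theorem Hm_inj {x N : ℝ} (hx : 0 ≤ x) (hN : 0 ≤ N) (hxN : x * (N + 6) < 1) {u a b : ℂ}
    (hu : ‖u‖ = 1) (ha : 0 < a.im) (hb : 0 < b.im) (hab : Hm x N u a = Hm x N u b) : a = b := by
  by_contra hne
  have h1 := norm_Psi_sub hN hu ha hb
  have h2 : b - a = -(x * (Psi N u b - Psi N u a)) := by
    unfold Hm at hab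
    linear_combination (-1 : ℂ) * hab
  have h3 : ‖b - a‖ = x * ‖Psi N u b - Psi N u a‖ := by
    conv_lhs => rw [h2]
    rw [norm_neg, norm_mul, Complex.norm_real, Real.norm_of_nonneg hx]
  have h4 : 0 < ‖b - a‖ := norm_pos_iff.2 (sub_ne_zero.2 (Ne.symm hne))
  have h5 : x * ‖Psi N u b - Psi N u a‖ ≤ x * ((N + 6) * ‖b - a‖) :=
    mul_le_mul_of_nonneg_left h1 hx
  nlinarith

theorem Hm'_ne {x N : ℝ} (hx : 0 ≤ x) (hN : 0 ≤ N) (hxN : x * (N + 6) < 1) {u ζ : ℂ}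
    (hu : ‖u‖ = 1) (h : 0 < ζ.im) : Hm' x N u ζ ≠ 0 := by
  intro h0
  unfold Hm' at h0
  have h1 : (1 : ℂ) = -(x * Psi' N u ζ) := by linear_combination h0
  have h2 : (1 : ℝ) = x * ‖Psi' N u ζ‖ := by
    have := congrArg norm h1
    rwa [norm_one, norm_neg, norm_mul, Complex.norm_real, Real.norm_of_nonneg hx] at this
  have h3 := mul_le_mul_of_nonneg_left (norm_Psi'_le hN hu h) hx
  linarith

theorem Hm_ne {x N : ℝ} (hx : 0 ≤ x) (hN : 0 ≤ N) {u ζ : ℂ} (hu : ‖u‖ = 1) (h : 0 < ζ.im) :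
    Hm x N u ζ ≠ 0 := by
  intro h0
  have := im_Hm hx hN hu h
  rw [h0] at this
  simp at this

/-! ### The half plane coordinate of the disc -/

noncomputable def Zt (z : ℂ) : ℂ := I * (1 + z) / (1 - z)

theorem hasDerivAt_Zt {z : ℂ} (hz : ‖z‖ < 1) : HasDerivAt Zt (2 * I / (1 - z) ^ 2) z := by
  have h0 := one_sub_ne hz
  have h1 : HasDerivAt (fun w : ℂ => I * (1 + w)) I z := by
    have := ((hasDerivAt_id z).const_add 1).const_mul I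
    simpa using this
  have h2 : HasDerivAt (fun w : ℂ => 1 - w) (-1) z := by
    simpa using (hasDerivAt_id z).const_sub 1
  have h3 : HasDerivAt Zt _ z := h1.div h2 h0
  refine h3.congr_deriv ?_
  field_simp
  ring

theorem im_Zt {z : ℂ} (hz : ‖z‖ < 1) : (Zt z).im = (1 - ‖z‖ ^ 2) / ‖1 - z‖ ^ 2 := by
  have h0 := one_sub_ne hz
  have key : Zt z = (I * (1 + z) * starRingEnd ℂ (1 - z)) / ((‖1 - z‖ ^ 2 : ℝ) : ℂ) := by
    have h2 : ((‖1 - z‖ ^ 2 : ℝ) : ℂ) = (1 - z) * starRingEnd ℂ (1 - z) := by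
      rw [Complex.mul_conj, Complex.normSq_eq_norm_sq]
    have h4 : starRingEnd ℂ (1 - z) ≠ 0 := (map_ne_zero _).2 h0
    unfold Zt
    rw [h2]
    field_simp
  rw [key, Complex.div_ofReal_im, norm_sq' z]
  congr 1
  simp [Complex.mul_im, Complex.mul_re]
  ring

theorem im_Zt_pos {z : ℂ} (hz : ‖z‖ < 1) : 0 < (Zt z).im := by
  rw [im_Zt hz]
  have h0 : 0 < ‖1 - z‖ := norm_pos_iff.2 (one_sub_ne hz)
  have : ‖z‖ ^ 2 < 1 := by nlinarith [norm_nonneg z]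
  apply div_pos (by linarith) (by positivity)

theorem Zt_inj {a b : ℂ} (ha : ‖a‖ < 1) (hb : ‖b‖ < 1) (h : Zt a = Zt b) : a = b := by
  have h1 := one_sub_ne ha
  have h2 := one_sub_ne hb
  unfold Zt at h
  rw [div_eq_div_iff h1 h2] at h
  have h3 : (2 * I) * (a - b) = 0 := by linear_combination h
  rcases mul_eq_zero.1 h3 with h4 | h4
  · simp at h4
  · exact sub_eq_zero.1 h4

end Pool.Agent.KS6_89.Tip
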