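import Pool.Agent.KS6_89.Tip.Map

set_option autoImplicit false

namespace Pool.Agent.KS6_89.Tip

open Complex Pool.Agent.Helper766.Mean

/-- `H H' / ζ` -/
noncomputable def qf (x N : ℝ) (u ζ : ℂ) : ℂ := Hm x N u ζ * Hm' x N u ζ / ζ

/-- the main oscillating term -/
noncomputable def bt (x N : ℝ) (ζ : ℂ) : ℂ := x * N * I * exp (I * N * ζ) / (ζ + I) ^ 4

theorem ne_of_im {ζ : ℂ} (h : 0 < ζ.im) : ζ ≠ 0 := by
  intro h0; rw [h0] at h; simp at h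

theorem norm_first {ζ : ℂ} (h : 0 < ζ.im) :
    ‖-(ζ + 2 * I) / (2 * (ζ + I) ^ 2)‖ ≤ 1 / ‖ζ + I‖ := by
  have h1 := one_le_s h
  have hpos : 0 < ‖ζ + I‖ := by linarith
  have h2 : ‖ζ + 2 * I‖ ≤ 2 * ‖ζ + I‖ := by
    have : ζ + 2 * I = (ζ + I) + I := by ring
    rw [this]
    calc ‖(ζ + I) + I‖ ≤ ‖ζ + I‖ + ‖I‖ := norm_add_le _ _
      _ = ‖ζ + I‖ + 1 := by simp
      _ ≤ _ := by linarith
  rw [norm_div, norm_neg, norm_mul, norm_pow, div_le_div_iff₀ (by norm_num; positivity) hpos]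
  norm_num
  nlinarith

theorem qf_eq (x N : ℝ) (u : ℂ) {ζ : ℂ} (h : 0 < ζ.im) :
    qf x N u ζ = 1 + u * bt x N ζ + (x / (ζ * (ζ + I) ^ 3) +
      x ^ 2 * (-(ζ + 2 * I) / (2 * (ζ + I) ^ 2)) * ((ζ + 3 * I) / (2 * (ζ + I) ^ 3)) / ζ +
      u * (x * exp (I * N * ζ) / (ζ * (ζ + I) ^ 4)) * (1 + x * ((ζ + 3 * I) / (2 * (ζ + I) ^ 3))) +
      u * (-(4 * x * exp (I * N * ζ) / (ζ + I) ^ 5)) +
      u * (x * exp (I * N * ζ) * (I * N / (ζ + I) ^ 4 - 4 / (ζ + I) ^ 5)) *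
        (x * (-(ζ + 2 * I) / (2 * (ζ + I) ^ 2)) / ζ) +
      u ^ 2 * (x * exp (I * N * ζ) / (ζ * (ζ + I) ^ 4)) *
        (x * exp (I * N * ζ) * (I * N / (ζ + I) ^ 4 - 4 / (ζ + I) ^ 5))) := by
  have hs := s_ne h
  have hz := ne_of_im h
  unfold qf Hm Hm' Psi Psi' bt
  have hI : I ^ 2 = -1 := I_sq
  generalize hE : exp (I * N * ζ) = E
  generalize hS : ζ + I = s at hs
  have hζ : ζ = s - I := by rw [← hS]; ring
  have key : (x : ℂ) * (-(ζ + 2 * I) / (2 * s ^ 2)) / ζ + x * ((ζ + 3 * I) / (2 * s ^ 3)) =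
      x / (ζ * s ^ 3) := by
    field_simp
    have : -(ζ + 2 * I) * s + (ζ + 3 * I) * ζ = 2 := by
      rw [← hS]; linear_combination (-2 : ℂ) * hI
    linear_combination (x : ℂ) * this
  field_simp at key ⊢
  linear_combination (2 * s ^ 6) * key

theorem qf_approx {x N : ℝ} (hx : 0 ≤ x) (hx1 : x ≤ 1 / 2) (hN : 0 ≤ N)
    (hxN : x * (N + 4) ≤ 1) {u ζ : ℂ} (hu : ‖u‖ = 1) (h : 0 < ζ.im) :
    ‖qf x N u ζ - (1 + u * bt x N ζ)‖ ≤ 11 * x / (‖ζ‖ * ‖ζ + I‖ ^ 3) := by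
  have hs1 := one_le_s h
  have has := norm_le_s h
  have ha : 0 < ‖ζ‖ := norm_pos_iff.2 (ne_of_im h)
  have hs : 0 < ‖ζ + I‖ := by linarith
  have hnx : ‖(x : ℂ)‖ = x := by rw [Complex.norm_real, Real.norm_of_nonneg hx]
  have hE := norm_exp_I_le hN h
  have hE0 := norm_nonneg (exp (I * N * ζ))
  have hP := norm_first h
  have hP' := norm_first' h
  have hB := norm_second' hN hu h
  set D := x / (‖ζ‖ * ‖ζ + I‖ ^ 3) with hD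
  have hD0 : 0 ≤ D := by positivity
  have e4 : ‖u * (x * exp (I * N * ζ) / (ζ * (ζ + I) ^ 4))‖ ≤ D := by
    rw [norm_mul, hu, one_mul, norm_div, norm_mul, hnx, norm_mul, norm_pow]
    rw [hD]
    calc x * ‖exp (I * N * ζ)‖ / (‖ζ‖ * ‖ζ + I‖ ^ 4) ≤ x * 1 / (‖ζ‖ * ‖ζ + I‖ ^ 4) := by gcongr
      _ ≤ x * 1 / (‖ζ‖ * ‖ζ + I‖ ^ 3) := by
        have : ‖ζ + I‖ ^ 3 ≤ ‖ζ + I‖ ^ 4 := pow_le_pow_right₀ hs1 (by norm_num)
        gcongr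
      _ = _ := by rw [mul_one]
  have T1 : ‖(x : ℂ) / (ζ * (ζ + I) ^ 3)‖ ≤ D := by
    rw [norm_div, hnx, norm_mul, norm_pow]
  have T2 : ‖(x : ℂ) ^ 2 * (-(ζ + 2 * I) / (2 * (ζ + I) ^ 2)) *
      ((ζ + 3 * I) / (2 * (ζ + I) ^ 3)) / ζ‖ ≤ D := by
    rw [norm_div, norm_mul, norm_mul, norm_pow, hnx]
    calc x ^ 2 * ‖-(ζ + 2 * I) / (2 * (ζ + I) ^ 2)‖ * ‖(ζ + 3 * I) / (2 * (ζ + I) ^ 3)‖ / ‖ζ‖ ≤
        x ^ 2 * (1 / ‖ζ + I‖) * (3 / (2 * ‖ζ + I‖ ^ 2)) / ‖ζ‖ := by gcongr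
      _ = (3 / 2 * x) * D := by rw [hD]; field_simp
      _ ≤ 1 * D := by
        apply mul_le_mul_of_nonneg_right _ hD0
        linarith
      _ = D := one_mul _
  have T3 : ‖u * (x * exp (I * N * ζ) / (ζ * (ζ + I) ^ 4)) *
      (1 + x * ((ζ + 3 * I) / (2 * (ζ + I) ^ 3)))‖ ≤ 2 * D := by
    rw [norm_mul]
    have h5 : ‖1 + x * ((ζ + 3 * I) / (2 * (ζ + I) ^ 3))‖ ≤ 2 := by
      calc ‖1 + x * ((ζ + 3 * I) / (2 * (ζ + I) ^ 3))‖ ≤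
          ‖(1 : ℂ)‖ + ‖x * ((ζ + 3 * I) / (2 * (ζ + I) ^ 3))‖ := norm_add_le _ _
        _ = 1 + x * ‖(ζ + 3 * I) / (2 * (ζ + I) ^ 3)‖ := by rw [norm_one, norm_mul, hnx]
        _ ≤ 1 + (1 / 2) * (3 / 2) := by
          have h6 : 3 / (2 * ‖ζ + I‖ ^ 2) ≤ 3 / 2 := by
            have : (1 : ℝ) ≤ ‖ζ + I‖ ^ 2 := one_le_pow₀ hs1
            rw [div_le_div_iff₀ (by positivity) (by norm_num)]
            linarith
          have := mul_le_mul hx1 (hP'.trans h6) (norm_nonneg _) (by norm_num)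
          linarith
        _ ≤ 2 := by norm_num
    calc _ ≤ D * 2 := mul_le_mul e4 h5 (norm_nonneg _) hD0
      _ = _ := by ring
  have T4 : ‖u * (-(4 * x * exp (I * N * ζ) / (ζ + I) ^ 5))‖ ≤ 4 * D := by
    rw [norm_mul, hu, one_mul, norm_neg, norm_div, norm_mul, norm_mul, hnx, norm_pow]
    have h5 : ‖ζ‖ * ‖ζ + I‖ ^ 3 ≤ ‖ζ + I‖ ^ 5 := by
      calc ‖ζ‖ * ‖ζ + I‖ ^ 3 ≤ ‖ζ + I‖ * ‖ζ + I‖ ^ 3 := by gcongr
        _ = ‖ζ + I‖ ^ 4 := by ring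
        _ ≤ _ := pow_le_pow_right₀ hs1 (by norm_num)
    have h6 : ‖(4 : ℂ)‖ = 4 := by norm_num
    rw [h6, hD]
    calc 4 * x * ‖exp (I * N * ζ)‖ / ‖ζ + I‖ ^ 5 ≤ 4 * x * 1 / ‖ζ + I‖ ^ 5 := by gcongr
      _ ≤ 4 * x * 1 / (‖ζ‖ * ‖ζ + I‖ ^ 3) := by gcongr
      _ = _ := by ring
  have hbeta : ‖u * (x * exp (I * N * ζ) * (I * N / (ζ + I) ^ 4 - 4 / (ζ + I) ^ 5))‖ ≤
      1 / ‖ζ + I‖ ^ 4 := by
    have : u * (x * exp (I * N * ζ) * (I * N / (ζ + I) ^ 4 - 4 / (ζ + I) ^ 5)) =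
        x * (u * exp (I * N * ζ) * (I * N / (ζ + I) ^ 4 - 4 / (ζ + I) ^ 5)) := by ring
    rw [this, norm_mul, hnx]
    calc x * ‖u * exp (I * N * ζ) * (I * N / (ζ + I) ^ 4 - 4 / (ζ + I) ^ 5)‖ ≤
        x * ((N + 4) / ‖ζ + I‖ ^ 4) := by gcongr
      _ = x * (N + 4) / ‖ζ + I‖ ^ 4 := by ring
      _ ≤ _ := by gcongr
  have hbeta1 : 1 / ‖ζ + I‖ ^ 4 ≤ 1 := by
    rw [div_le_one (by positivity)]; exact one_le_pow₀ hs1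
  have T5 : ‖u * (x * exp (I * N * ζ) * (I * N / (ζ + I) ^ 4 - 4 / (ζ + I) ^ 5)) *
        (x * (-(ζ + 2 * I) / (2 * (ζ + I) ^ 2)) / ζ)‖ ≤ D := by
    rw [norm_mul, norm_div, norm_mul (x : ℂ), hnx]
    calc _ ≤ (1 / ‖ζ + I‖ ^ 4) * (x * (1 / ‖ζ + I‖) / ‖ζ‖) := by gcongr
      _ = D / ‖ζ + I‖ ^ 2 := by rw [hD]; field_simp
      _ ≤ D := div_le_self hD0 (one_le_pow₀ hs1)
  have T6 : ‖u ^ 2 * (x * exp (I * N * ζ) / (ζ * (ζ + I) ^ 4)) *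
        (x * exp (I * N * ζ) * (I * N / (ζ + I) ^ 4 - 4 / (ζ + I) ^ 5))‖ ≤ D := by
    have : u ^ 2 * (x * exp (I * N * ζ) / (ζ * (ζ + I) ^ 4)) *
        (x * exp (I * N * ζ) * (I * N / (ζ + I) ^ 4 - 4 / (ζ + I) ^ 5)) =
        (u * (x * exp (I * N * ζ) / (ζ * (ζ + I) ^ 4))) *
        (u * (x * exp (I * N * ζ) * (I * N / (ζ + I) ^ 4 - 4 / (ζ + I) ^ 5))) := by ring
    rw [this, norm_mul]
    calc _ ≤ D * 1 := mul_le_mul e4 (hbeta.trans hbeta1) (norm_nonneg _) hD0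
      _ = D := mul_one _
  rw [qf_eq x N u h, add_sub_cancel_left]
  refine (norm_add_le _ _).trans ?_
  refine (add_le_add (norm_add_le _ _) T6).trans ?_
  refine (add_le_add_left (add_le_add (norm_add_le _ _) T5) _).trans ?_
  refine (add_le_add_left (add_le_add_left (add_le_add (norm_add_le _ _) T4) _) _).trans ?_
  refine (add_le_add_left (add_le_add_left (add_le_add_left
    (add_le_add (norm_add_le _ _) T3) _) _) _).trans ?_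
  have : 11 * x / (‖ζ‖ * ‖ζ + I‖ ^ 3) = 11 * D := by rw [hD]; ring
  rw [this]
  linarith

theorem norm_bt {x N : ℝ} (hx : 0 ≤ x) (hN : 0 ≤ N) (ζ : ℂ) :
    ‖bt x N ζ‖ = x * N * Real.exp (-(N * ζ.im)) / ‖ζ + I‖ ^ 4 := by
  unfold bt
  rw [norm_div, norm_mul, norm_mul, norm_mul, norm_exp_I, norm_pow, Complex.norm_real,
    Complex.norm_real, Real.norm_of_nonneg hx, Real.norm_of_nonneg hN, Complex.norm_I, mul_one]

theorem norm_bt_le {x N : ℝ} (hx : 0 ≤ x) (hN : 0 ≤ N) {ζ : ℂ} (h : 0 < ζ.im) :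
    ‖bt x N ζ‖ ≤ x * N := by
  rw [norm_bt hx hN]
  have h1 : Real.exp (-(N * ζ.im)) ≤ 1 := by
    rw [Real.exp_le_one_iff]; have := mul_nonneg hN h.le; linarith
  have h2 := one_le_s h
  have h3 : (1 : ℝ) ≤ ‖ζ + I‖ ^ 4 := one_le_pow₀ h2
  calc x * N * Real.exp (-(N * ζ.im)) / ‖ζ + I‖ ^ 4 ≤ x * N * 1 / 1 := by gcongr
    _ = _ := by ring

/-- the four values of the parameter -/
theorem sum_qf {lam : ℝ} (h1 : 2 / 5 ≤ lam) (h2 : lam ≤ 1) {x N : ℝ} (hx : 0 ≤ x) (hN : 1 ≤ N)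
    (hxN : x * N ≤ 1 / 200) {ζ : ℂ} (h : 0 < ζ.im) (hζ : 1 / (4 * N) ≤ ζ.im) :
    4 + lam ^ 2 / 2 * ‖bt x N ζ‖ ^ 2 - 176 * x / (‖ζ‖ * ‖ζ + I‖ ^ 3) ≤
      ‖qf x N 1 ζ‖ ^ lam + ‖qf x N (-1) ζ‖ ^ lam + ‖qf x N I ζ‖ ^ lam + ‖qf x N (-I) ζ‖ ^ lam := by
  have hN0 : 0 < N := by linarith
  have hx1 : x ≤ 1 / 200 := by nlinarith
  have hx4 : x * (N + 4) ≤ 1 := by nlinarith
  have hs1 := one_le_s h
  have ha : 0 < ‖ζ‖ := norm_pos_iff.2 (ne_of_im h)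
  have hb := norm_bt_le hx hN0.le h
  have hb20 : ‖-bt x N ζ‖ ≤ 1 / 20 := by rw [norm_neg]; linarith
  have havg := avg_ineq' h1 h2 hb20
  rw [norm_neg] at havg
  set D := x / (‖ζ‖ * ‖ζ + I‖ ^ 3) with hD
  have hD0 : 0 ≤ D := by positivity
  have hD1 : 11 * D ≤ 1 / 4 := by
    have h5 : 1 / (4 * N) ≤ ‖ζ‖ * ‖ζ + I‖ ^ 3 := by
      calc 1 / (4 * N) ≤ ζ.im := hζ
        _ ≤ ‖ζ‖ := (le_abs_self _).trans (Complex.abs_im_le_norm ζ)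
        _ ≤ ‖ζ‖ * ‖ζ + I‖ ^ 3 := le_mul_of_one_le_right ha.le (one_le_pow₀ hs1)
    have h6 : D ≤ x / (1 / (4 * N)) := by
      rw [hD]; gcongr
    have h7 : x / (1 / (4 * N)) = 4 * (x * N) := by field_simp
    rw [h7] at h6
    linarith
  have one : ∀ u : ℂ, ‖u‖ = 1 → ‖1 - (-u) * bt x N ζ‖ ^ lam - 44 * D ≤ ‖qf x N u ζ‖ ^ lam := by
    intro u hu
    have h5 := qf_approx hx (by linarith) hN0.le hx4 hu h
    have h5' : ‖qf x N u ζ - (1 + u * bt x N ζ)‖ ≤ 11 * D := by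
      rw [hD]; refine h5.trans (le_of_eq ?_); ring
    have h6 : ‖1 - (-u) * bt x N ζ‖ - 11 * D ≤ ‖qf x N u ζ‖ := by
      have : (1 : ℂ) - (-u) * bt x N ζ = qf x N u ζ - (qf x N u ζ - (1 + u * bt x N ζ)) := by ring
      have h7 : ‖1 - (-u) * bt x N ζ‖ ≤ ‖qf x N u ζ‖ + ‖qf x N u ζ - (1 + u * bt x N ζ)‖ := by
        rw [this]; exact norm_sub_le _ _
      linarith
    have h8 : 1 / 2 ≤ ‖1 - (-u) * bt x N ζ‖ := by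
      have h9 : ‖(1 : ℂ)‖ ≤ ‖1 - (-u) * bt x N ζ‖ + ‖(-u) * bt x N ζ‖ := by
        calc ‖(1 : ℂ)‖ = ‖(1 - (-u) * bt x N ζ) + (-u) * bt x N ζ‖ := by ring_nf
          _ ≤ _ := norm_add_le _ _
      rw [norm_one, norm_mul, norm_neg, hu, one_mul] at h9
      linarith
    have h10 := rpow_sub_lower (by linarith : 0 ≤ lam) h2 h8 (by linarith : 0 ≤ 11 * D) hD1
    have h11 : (‖1 - (-u) * bt x N ζ‖ - 11 * D) ^ lam ≤ ‖qf x N u ζ‖ ^ lam :=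
      Real.rpow_le_rpow (by linarith) h6 (by linarith)
    linarith
  have o1 := one 1 norm_one
  have o2 := one (-1) (by simp)
  have o3 := one I (by simp)
  have o4 := one (-I) (by simp)
  have r1 : ‖1 - -bt x N ζ‖ = ‖1 - (-(1 : ℂ)) * bt x N ζ‖ := by congr 1; ring
  have r2 : ‖1 - (-1) * -bt x N ζ‖ = ‖1 - (-(-1 : ℂ)) * bt x N ζ‖ := by congr 1; ring
  have r3 : ‖1 - I * -bt x N ζ‖ = ‖1 - (-I) * bt x N ζ‖ := by congr 1; ring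
  have r4 : ‖1 - (-I) * -bt x N ζ‖ = ‖1 - (-(-I)) * bt x N ζ‖ := by congr 1; ring
  rw [r1, r2, r3, r4] at havg
  have : 176 * x / (‖ζ‖ * ‖ζ + I‖ ^ 3) = 176 * D := by rw [hD]; ring
  rw [this]
  have e : 4 * (1 + lam ^ 2 / 8 * ‖bt x N ζ‖ ^ 2) = 4 + lam ^ 2 / 2 * ‖bt x N ζ‖ ^ 2 := by ring
  rw [e] at havg
  refine le_trans ?_ (add_le_add (add_le_add (add_le_add o1 o2) o3) o4)
  refine le_trans (sub_le_sub_right havg _) (le_of_eq ?_)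
  ring

end Pool.Agent.KS6_89.Tip
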